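import Pool.Agent.Q41.SP.Stm6

set_option autoImplicit false

/-!
# Project SP, job Y1: Newton polygons
-/

namespace Pool.Agent.Q210.SP.Y1

open Finset Polynomial
open Pool.Agent.Q41.SU Pool.Agent.Q41.SP

universe u

section

variable {E : Type u} [Field E]

/-- the exact power of the variable in a polynomial over the power series -/
lemma fac (A : (PowerSeries E)[X]) (hA : A ≠ 0) :
    ∃ (a : ℕ) (A' : (PowerSeries E)[X]), A = C ((PowerSeries.X : PowerSeries E) ^ a) * A' ∧
      A'.map PowerSeries.constantCoeff ≠ 0 ∧ A'.natDegree = A.natDegree := by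
  classical
  have hex : ∃ m : ℕ, ¬ ∀ n, (PowerSeries.X : PowerSeries E) ^ (m + 1) ∣ A.coeff n := by
    obtain ⟨n, hn⟩ : ∃ n, A.coeff n ≠ 0 := by
      by_contra hcon
      push Not at hcon
      exact hA (Polynomial.ext fun n => by rw [hcon n, coeff_zero])
    obtain ⟨m, hm⟩ : ∃ m, PowerSeries.coeff m (A.coeff n) ≠ 0 := by
      by_contra hcon
      push Not at hcon
      exact hn (PowerSeries.ext fun m => by rw [hcon m, map_zero])
    refine ⟨m, fun h => hm ?_⟩
    have := h n
    rw [PowerSeries.X_pow_dvd_iff] at this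
    exact this m (by omega)
  have hspec := Nat.find_spec hex
  have hmin := fun m' => Nat.find_min hex (m := m')
  generalize Nat.find hex = m at hspec hmin
  have hall : ∀ n, (PowerSeries.X : PowerSeries E) ^ m ∣ A.coeff n := by
    rcases Nat.eq_zero_or_pos m with h0 | h0
    · intro n
      rw [h0, pow_zero]
      exact one_dvd _
    · have h1 := hmin (m - 1) (by omega)
      push Not at h1
      rwa [Nat.sub_add_cancel h0] at h1
  obtain ⟨A', hA'⟩ := (C_dvd_iff_dvd_coeff _ _).2 hall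
  refine ⟨m, A', hA', fun h => hspec fun n => ?_, ?_⟩
  · have h1 : PowerSeries.constantCoeff (A'.coeff n) = 0 := by
      rw [← coeff_map, h, coeff_zero]
    rw [← PowerSeries.X_dvd_iff] at h1
    rw [hA', coeff_C_mul, pow_succ]
    exact mul_dvd_mul_left _ h1
  · rw [hA', natDegree_C_mul (pow_ne_zero _ PowerSeries.X_ne_zero)]

/-- a sum of terms of different orders -/
lemma ord_sum (J : Finset ℕ) (f : ℕ → ℕ) (g : ℕ → PowerSeries E)
    (hf : ∀ j ∈ J, ∀ j' ∈ J, f j = f j' → j = j')
    (hg : ∀ j ∈ J, PowerSeries.constantCoeff (g j) ≠ 0) (j₀ : ℕ) (hj₀ : j₀ ∈ J) (M : ℕ)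
    (hM : f j₀ < M) : ¬ (PowerSeries.X : PowerSeries E) ^ M ∣ ∑ j ∈ J, PowerSeries.X ^ f j * g j := by
  classical
  intro hdvd
  obtain ⟨j₁, hj₁, hmin⟩ := exists_min_image J f ⟨j₀, hj₀⟩
  have h1 : (PowerSeries.X : PowerSeries E) ^ (f j₁ + 1) ∣ ∑ j ∈ J, PowerSeries.X ^ f j * g j :=
    (pow_dvd_pow _ (by have := hmin j₀ hj₀; omega)).trans hdvd
  rw [← add_sum_erase J _ hj₁] at h1
  have h2 : (PowerSeries.X : PowerSeries E) ^ (f j₁ + 1) ∣ ∑ j ∈ J.erase j₁, PowerSeries.X ^ f j * g j := by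
    refine dvd_sum fun j hj => ?_
    refine Dvd.dvd.mul_right (pow_dvd_pow _ ?_) _
    have h3 := hmin j (mem_of_mem_erase hj)
    have h4 : f j₁ ≠ f j := fun h => ne_of_mem_erase hj (hf j₁ hj₁ j (mem_of_mem_erase hj) h).symm
    omega
  have h3 := (dvd_add_left h2).1 h1
  rw [pow_succ, mul_dvd_mul_iff_left (pow_ne_zero _ PowerSeries.X_ne_zero),
    PowerSeries.X_dvd_iff] at h3
  exact hg j₁ hj₁ h3

/-- the expansion -/
lemma expn (β H q : ℕ) (G : (PowerSeries E)[X][X]) (hG : Dg β H G) (hred : red G ≠ 0) :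
    ∃ A : ℕ → (PowerSeries E)[X], (∀ j ≤ β, (A j).natDegree ≤ H + q * β) ∧
      (∃ j ≤ β, (A j).map PowerSeries.constantCoeff ≠ 0) ∧
      ∀ (x : E) (y : PowerSeries E), G.evalEval (PowerSeries.C x) y =
        ∑ j ∈ range (β + 1), (A j).eval (PowerSeries.C x) * (y - PowerSeries.C (x ^ q)) ^ j := by
  have hT : ∑ j ∈ range (β + 1), C ((taylor (X ^ q) G).coeff j) * (X - C (X ^ q)) ^ j = G := by
    have h1 := sum_taylor_eq G (X ^ q)
    rw [sum_over_range' _ (fun n => by rw [C_0, zero_mul]) (β + 1) (by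
      rw [natDegree_taylor]
      exact Nat.lt_succ_of_le hG.1)] at h1
    exact h1
  refine ⟨fun j => (taylor (X ^ q) G).coeff j, fun j hj => ?_, ?_, fun x y => ?_⟩
  · change ((taylor (X ^ q) G).coeff j).natDegree ≤ H + q * β
    rw [taylor_coeff, eval_eq_sum_range' (n := β + 1) (by
      refine lt_of_le_of_lt (natDegree_hasseDeriv_le _ _) ?_
      have := hG.1
      omega)]
    refine natDegree_sum_le_of_forall_le _ _ fun i hi => ?_
    rw [hasseDeriv_coeff, ← pow_mul]
    refine natDegree_mul_le.trans ?_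
    have h1 := natDegree_X_pow_le (R := PowerSeries E) (q * i)
    have h2 : (((i + j).choose j : (PowerSeries E)[X]) * G.coeff (i + j)).natDegree ≤ H := by
      rw [← nsmul_eq_mul]
      exact (natDegree_smul_le _ _).trans (hG.2 _)
    have h3 : q * i ≤ q * β := Nat.mul_le_mul_left _ (by have := mem_range.1 hi; omega)
    omega
  · by_contra hcon
    push Not at hcon
    apply hred
    unfold red
    rw [← hT, Polynomial.map_sum]
    refine sum_eq_zero fun j hj => ?_
    have h1 := hcon j (by have := mem_range.1 hj; omega)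
    rw [Polynomial.map_mul, map_C, coe_mapRingHom, h1, C_0, zero_mul]
  · conv_lhs => rw [← hT]
    rw [evalEval_finsetSum]
    refine sum_congr rfl fun j _ => ?_
    rw [evalEval_mul, evalEval_C, evalEval_pow, evalEval_sub, evalEval_X, evalEval_C, eval_pow, eval_X,
      map_pow]

end

theorem y1 (hlev : S_levP.{u}) : S_npP.{u} := by
  classical
  intro l r β H hl
  refine ⟨(β + 1) * (H + l ^ r * β) + (β + 1) * (β + 1), ?_⟩
  intro k E _ _ _ _ _ τ D hτ G hG hred I x lv hx hlv hw hVa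
  obtain ⟨A, hAd, ⟨j₀, hj₀, hA0⟩, hev⟩ := expn β H (l ^ r) G hG hred
  -- the factorisations
  have hfac : ∀ j, ∃ (a : ℕ) (A' : (PowerSeries E)[X]), A j ≠ 0 → A j = C (PowerSeries.X ^ a) * A' ∧
      A'.map PowerSeries.constantCoeff ≠ 0 ∧ A'.natDegree = (A j).natDegree := by
    intro j
    by_cases h : A j = 0
    · exact ⟨0, 0, fun h' => absurd h h'⟩
    · obtain ⟨a, A', h1⟩ := fac (A j) h
      exact ⟨a, A', fun _ => h1⟩
  choose a A' hfac using hfac
  have hA0' : A j₀ ≠ 0 := fun h => hA0 (by rw [h, Polynomial.map_zero])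
  have ha0 : a j₀ = 0 := by
    by_contra hne
    apply hA0
    rw [(hfac j₀ hA0').1, Polynomial.map_mul, map_C, map_pow, PowerSeries.constantCoeff_X, zero_pow hne,
      C_0, zero_mul]
  obtain ⟨J, hJ⟩ : ∃ J : Finset ℕ, J = (range (β + 1)).filter fun j => A j ≠ 0 := ⟨_, rfl⟩
  have hJm : ∀ j, j ∈ J ↔ j ≤ β ∧ A j ≠ 0 := fun j => by
    rw [hJ, mem_filter, mem_range, Nat.lt_succ_iff]
  -- the exceptional indices
  obtain ⟨Ex, hEx⟩ : ∃ Ex : Finset ℕ, Ex = I.filter fun i => ∃ j ∈ J,
    ((A' j).map PowerSeries.constantCoeff).eval (x i) = 0 := ⟨_, rfl⟩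
  have hExc : Ex.card ≤ (β + 1) * (H + l ^ r * β) := by
    have h1 : Ex.image x ⊆ J.biUnion fun j => ((A' j).map PowerSeries.constantCoeff).roots.toFinset := by
      intro y hy
      obtain ⟨i, hi, rfl⟩ := mem_image.1 hy
      rw [hEx, mem_filter] at hi
      obtain ⟨-, j, hj, h2⟩ := hi
      rw [mem_biUnion]
      refine ⟨j, hj, ?_⟩
      rw [Multiset.mem_toFinset, mem_roots (hfac j ((hJm j).1 hj).2).2.1]
      exact h2
    have h2 : (Ex.image x).card = Ex.card := card_image_of_injOn (hx.mono (by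
      intro i hi
      rw [hEx] at hi
      exact (mem_filter.1 hi).1))
    have h3 : J.card ≤ β + 1 := by
      rw [hJ]
      exact (card_filter_le _ _).trans (by rw [card_range])
    rw [← h2]
    refine (card_le_card h1).trans (card_biUnion_le.trans ?_)
    refine (sum_le_card_nsmul J _ (H + l ^ r * β) fun j hj => ?_).trans ?_
    · refine (Multiset.toFinset_card_le _).trans ((card_roots' _).trans ?_)
      refine natDegree_map_le.trans ?_
      rw [(hfac j ((hJm j).1 hj).2).2.2]
      exact hAd j ((hJm j).1 hj).1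
    · rw [smul_eq_mul]
      exact Nat.mul_le_mul_right _ h3
  -- the other indices
  have hpair : ∀ i ∈ I \ Ex, ∃ p : ℕ × ℕ, p ∈ range (β + 1) ×ˢ range (β + 1) ∧ p.1 < p.2 ∧
      a p.1 + p.1 * l ^ lv i = a p.2 + p.2 * l ^ lv i := by
    intro i hi
    rw [mem_sdiff] at hi
    obtain ⟨hiI, hiE⟩ := hi
    by_contra hcon
    push Not at hcon
    obtain ⟨w, hDw, hxw⟩ := hw i hiI
    obtain ⟨-, l2, l3⟩ := hlev l r (lv i) k E τ D hτ
    have l2 := l2 w
    have l3 := l3 w hDw
    rw [← hxw] at l2 l3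
    obtain ⟨v, hv⟩ := l2
    have hv0 : PowerSeries.constantCoeff v ≠ 0 := by
      intro h
      apply l3
      rw [← PowerSeries.X_dvd_iff] at h
      rw [hv, pow_succ]
      exact mul_dvd_mul_left _ h
    have hVi := hVa i hiI
    unfold Va at hVi
    rw [hev, hv] at hVi
    have hsum : ∑ j ∈ range (β + 1), (A j).eval (PowerSeries.C (x i)) *
        ((PowerSeries.X : PowerSeries E) ^ l ^ lv i * v) ^ j =
        ∑ j ∈ J, PowerSeries.X ^ (a j + j * l ^ lv i) * ((A' j).eval (PowerSeries.C (x i)) * v ^ j) := by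
      rw [hJ, sum_filter]
      refine sum_congr rfl fun j _ => ?_
      split_ifs with h
      · rw [(hfac j h).1, eval_mul, eval_C, mul_pow, ← pow_mul, pow_add, mul_comm j]
        ring
      · push Not at h
        rw [h, eval_zero, zero_mul]
    rw [hsum] at hVi
    refine ord_sum J (fun j => a j + j * l ^ lv i) _ ?_ ?_ j₀ ((hJm j₀).2 ⟨hj₀, hA0'⟩) _ ?_ hVi
    · intro j hj j' hj' hjj
      by_contra hne
      have b1 := ((hJm j).1 hj).1
      have b2 := ((hJm j').1 hj').1
      rcases Nat.lt_or_gt_of_ne hne with h | h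
      · exact hcon (j, j') (mem_product.2 ⟨mem_range.2 (by omega), mem_range.2 (by omega)⟩) h hjj
      · exact hcon (j', j) (mem_product.2 ⟨mem_range.2 (by omega), mem_range.2 (by omega)⟩) h hjj.symm
    · intro j hj
      rw [map_mul, map_pow]
      refine mul_ne_zero ?_ (pow_ne_zero _ hv0)
      intro h0
      apply hiE
      rw [hEx, mem_filter]
      refine ⟨hiI, j, hj, ?_⟩
      rw [← h0, eval_map, ← PowerSeries.constantCoeff_C (R := E) (x i), eval₂_at_apply,
        PowerSeries.constantCoeff_C]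
    · rw [ha0, zero_add]
      have : j₀ * l ^ lv i ≤ β * l ^ lv i := Nat.mul_le_mul_right _ hj₀
      omega
  choose! P hP using hpair
  have hcard : (I \ Ex).card ≤ (β + 1) * (β + 1) := by
    have h1 : (range (β + 1) ×ˢ range (β + 1)).card = (β + 1) * (β + 1) := by
      rw [card_product, card_range]
    rw [← h1]
    refine card_le_card_of_injOn P (fun i hi => (hP i hi).1) ?_
    intro i hi i' hi' hPP
    obtain ⟨-, h2, h3⟩ := hP i hi
    obtain ⟨-, h2', h3'⟩ := hP i' hi'
    rw [← hPP] at h3'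
    have hiI : i ∈ I := (mem_sdiff.1 hi).1
    have hiI' : i' ∈ I := (mem_sdiff.1 hi').1
    obtain ⟨p, hp⟩ : ∃ p, p = P i := ⟨_, rfl⟩
    rw [← hp] at h2 h3 h3'
    obtain ⟨d, hd⟩ : ∃ d, p.2 = p.1 + d := ⟨p.2 - p.1, by omega⟩
    have hd0 : 0 < d := by omega
    rw [hd, add_mul] at h3 h3'
    have h4 : d * l ^ lv i = d * l ^ lv i' := by omega
    have h5 : l ^ lv i = l ^ lv i' := Nat.eq_of_mul_eq_mul_left hd0 h4
    exact hlv hiI hiI' (Nat.pow_right_injective hl.two_le h5)
  have h1 : I.card ≤ (I \ Ex).card + Ex.card := by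
    have h2 := card_sdiff_add_card I Ex
    have h3 := card_le_card (subset_union_left (s₁ := I) (s₂ := Ex))
    omega
  omega

end Pool.Agent.Q210.SP.Y1
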