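import Pool.Agent.Q210.SP.Sel

set_option autoImplicit false

/-!
# Project SP, jobs Y2, Y3, Y5: selection in characteristic `l`, the dichotomy
-/

namespace Pool.Agent.Q210.SP.Y235

open Finset Polynomial
open Pool.Agent.Q41.SU Pool.Agent.Q41.SP
open Pool.Agent.Q210.SP.Sel

universe u

theorem y2 (h3 : S_mtP.{u}) : S_selP.{u} := by
  classical
  intro l d ν b K' hl hd hν
  obtain ⟨M, hM⟩ := h3 l d ν b K' (1 / (2 * (ν : ℝ) + 2)) hl hd (by positivity)
  refine ⟨M, fun r a => ?_⟩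
  obtain ⟨N₀, hN₀⟩ := hM r a
  refine ⟨max N₀ 1, ?_⟩
  intro k E _ _ _ _ _ τ D hτ p q hRM n x hseg hn G _ hG hτG
  have hn0 : 0 < n := lt_of_lt_of_le one_pos ((le_max_right _ _).trans hn)
  by_cases halt : ∃ (μ : Mb E) (p₀ q₀ : E[X]), Ov l K' d μ p q p₀ q₀ ∧ ∃ i < n, Sub l K' μ (x i)
  · exact Or.inl halt
  right
  obtain ⟨y, hy1, hy2, hy3⟩ := select (a := a) (b := b)
    (fun (g : G) (z : E) => tw l r τ ((g : E ≃ₐ[k] E) z)) {z | ∃ i < n, z = x i} M (by
      intro c hc
      by_contra hcon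
      push Not at hcon
      obtain ⟨g, hg⟩ := pigeon n ν hG hn0 (fun g : G => (range n).filter fun i =>
        (PowerSeries.X : PowerSeries E) ^ M ∣
          ∑ j, c g j * PowerSeries.C (x i) ^ (j.1 : ℕ) *
            tw l r τ ((g : E ≃ₐ[k] E) (x i)) ^ (j.2 : ℕ)) (fun i hi => by
          obtain ⟨g, hg⟩ := hcon (x i) ⟨i, hi, rfl⟩
          exact ⟨g, mem_filter.2 ⟨mem_range.2 hi, (pow_dvd_pow _ (by omega)).trans hg⟩⟩)
      obtain ⟨μ, p₀, q₀, h1, i, h2, h4⟩ := hN₀ k E τ D hτ p q hRM n x hseg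
        ((le_max_left _ _).trans hn) _ (filter_subset _ _) hg (g : E ≃ₐ[k] E) (Fintype.card G)
        Fintype.card_pos hG (by
          rw [← Subgroup.coe_pow, pow_card_eq_one, Subgroup.coe_one]) (hτG _ g.2) (c g) (hc g) (fun i hi => (mem_filter.1 hi).2)
      exact halt ⟨μ, p₀, q₀, h1, i, mem_range.1 (mem_filter.1 h2).1, h4⟩)
  exact ⟨y, hy1, hy2, fun g hg => hy3 ⟨g, hg⟩⟩

section

variable {E : Type u} [Field E] {a b : ℕ}

/-- the relation with given coefficients -/
noncomputable def Gc (c : II a b → PowerSeries E) : (PowerSeries E)[X][X] :=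
  ∑ j : II a b, C (C (c j) * X ^ (j.1 : ℕ)) * X ^ (j.2 : ℕ)

lemma Gc_ev (c : II a b → PowerSeries E) (x y : PowerSeries E) :
    (Gc c).evalEval x y = ∑ j, c j * x ^ (j.1 : ℕ) * y ^ (j.2 : ℕ) := by
  unfold Gc
  rw [evalEval_finsetSum]
  refine sum_congr rfl fun j _ => ?_
  rw [evalEval_mul, evalEval_C, evalEval_pow, evalEval_X, eval_mul, eval_C, eval_pow, eval_X]

lemma Gc_coeff (c : II a b → PowerSeries E) (i : ℕ) :
    (Gc c).coeff i = ∑ j : II a b, if (j.2 : ℕ) = i then C (c j) * X ^ (j.1 : ℕ) else 0 := by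
  unfold Gc
  rw [finsetSum_coeff]
  refine sum_congr rfl fun j _ => ?_
  rw [coeff_C_mul, coeff_X_pow]
  by_cases h : i = (j.2 : ℕ)
  · rw [if_pos h, if_pos h.symm, mul_one]
  · rw [if_neg h, if_neg fun h' => h h'.symm, mul_zero]

lemma Gc_dg (c : II a b → PowerSeries E) : Dg b a (Gc c) := by
  constructor
  · unfold Gc
    refine natDegree_sum_le_of_forall_le _ _ fun j _ => ?_
    refine (natDegree_C_mul_X_pow_le _ _).trans ?_
    have := j.2.2
    omega
  · intro i
    rw [Gc_coeff]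
    refine natDegree_sum_le_of_forall_le _ _ fun j _ => ?_
    split_ifs
    · refine (natDegree_C_mul_X_pow_le _ _).trans ?_
      have := j.1.2
      omega
    · simp

lemma Gc_red (c : II a b → PowerSeries E) (h : ∃ i, PowerSeries.constantCoeff (c i) ≠ 0) :
    red (Gc c) ≠ 0 := by
  obtain ⟨i, hi⟩ := h
  intro h0
  apply hi
  have h1 : ((red (Gc c)).coeff (i.2 : ℕ)).coeff (i.1 : ℕ) = 0 := by
    rw [h0, coeff_zero, coeff_zero]
  unfold red at h1
  rw [coeff_map, coe_mapRingHom, coeff_map, Gc_coeff, finsetSum_coeff, sum_eq_single i] at h1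
  · rw [if_pos rfl, coeff_C_mul, coeff_X_pow, if_pos rfl, mul_one] at h1
    exact h1
  · intro j _ hj
    split_ifs with h2
    · rw [coeff_C_mul, coeff_X_pow, if_neg, mul_zero]
      intro h3
      exact hj (Prod.ext (Fin.ext h3.symm) (Fin.ext h2))
    · rw [coeff_zero]
  · intro h2
    exact absurd (mem_univ _) h2

end

theorem y3 (h1 : S_npP.{u}) (h2 : S_elmP.{u}) : S_selTP.{u} := by
  classical
  intro l ν b a r e hl hν hb he
  choose C₁ hC₁ using fun o : ℕ => h1 l (r * o) (b ^ o) (a ^ o) hl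
  obtain ⟨B, hB⟩ : ∃ B, B = ∑ o ∈ range (ν + 1), C₁ o + ν * (b + a) := ⟨_, rfl⟩
  refine ⟨ν * B + 1, ?_⟩
  obtain ⟨N', hN'⟩ : ∃ N', N' = ν * B + 1 := ⟨_, rfl⟩
  rw [← hN']
  intro k E _ _ _ _ _ τ D hτ G _ hG hτG x hx hw
  obtain ⟨o, ho⟩ : ∃ o, o = Fintype.card G := ⟨_, rfl⟩
  have ho1 : 1 ≤ o := ho ▸ Fintype.card_pos
  have hoν : o ≤ ν := ho ▸ hG
  obtain ⟨y, hy1, hy2, hy3⟩ := select (a := a) (b := b)
    (fun (g : G) (z : E) => tw l r τ ((g : E ≃ₐ[k] E) z)) {z | ∃ i < N', z = x i}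
    (b ^ ν * l ^ (e * N')) (by
      intro c hc
      by_contra hcon
      push Not at hcon
      -- a large fibre
      obtain ⟨W, hW⟩ : ∃ W : G → Finset ℕ, W = fun g : G => (range N').filter fun i =>
        (PowerSeries.X : PowerSeries E) ^ (b ^ ν * l ^ (e * N') + 1) ∣
          ∑ j, c g j * PowerSeries.C (x i) ^ (j.1 : ℕ) *
            tw l r τ ((g : E ≃ₐ[k] E) (x i)) ^ (j.2 : ℕ) := ⟨_, rfl⟩
      have hbig : ∃ g, B < (W g).card := by
        by_contra hno
        push Not at hno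
        have e1 : range N' ⊆ univ.biUnion W := by
          intro i hi
          obtain ⟨g, hg⟩ := hcon (x i) ⟨i, mem_range.1 hi, rfl⟩
          refine mem_biUnion.2 ⟨g, mem_univ _, ?_⟩
          rw [hW]
          exact mem_filter.2 ⟨hi, hg⟩
        have e2 := (card_le_card e1).trans card_biUnion_le
        rw [card_range] at e2
        have e3 : ∑ g : G, (W g).card ≤ Fintype.card G * B := by
          have := sum_le_card_nsmul (univ : Finset G) (fun g => (W g).card) B fun g _ => hno g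
          rwa [card_univ, smul_eq_mul] at this
        have e4 : Fintype.card G * B ≤ ν * B := Nat.mul_le_mul_right _ hG
        omega
      obtain ⟨g, hg⟩ := hbig
      have hgo : (g : E ≃ₐ[k] E) ^ o = 1 := by
        rw [ho, ← Subgroup.coe_pow, pow_card_eq_one, Subgroup.coe_one]
      obtain ⟨F', Exc, hF1, hF2, hExc, hF3⟩ := h2 l r b a o k E τ D hτ (g : E ≃ₐ[k] E) ho1 hgo
        (hτG _ g.2) (Gc (c g)) (Gc_dg _) (Gc_red _ (hc g))
      obtain ⟨I, hI⟩ : ∃ I : Finset ℕ, I = (W g).filter fun i => x i ∉ Exc := ⟨_, rfl⟩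
      have hWr : ∀ i ∈ W g, i < N' ∧ (PowerSeries.X : PowerSeries E) ^ (b ^ ν * l ^ (e * N') + 1) ∣
          ∑ j, c g j * PowerSeries.C (x i) ^ (j.1 : ℕ) *
            tw l r τ ((g : E ≃ₐ[k] E) (x i)) ^ (j.2 : ℕ) := by
        intro i hi
        rw [hW] at hi
        have := mem_filter.1 hi
        exact ⟨mem_range.1 this.1, this.2⟩
      have hIW : ∀ i ∈ I, i ∈ W g := fun i hi => by
        rw [hI] at hi
        exact (mem_filter.1 hi).1
      have hcI := hC₁ o k E τ D hτ F' hF1 hF2 I x (fun i => e * i) (by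
        intro i hi j hj hij
        exact hx i (hWr i (hIW i hi)).1 j (hWr j (hIW j hj)).1 hij) (by
        intro i _ j _ hij
        exact Nat.eq_of_mul_eq_mul_left (by omega) hij) (by
        intro i hi
        exact hw i (hWr i (hIW i hi)).1) (by
        intro i hi
        obtain ⟨q1, q2⟩ := hWr i (hIW i hi)
        have q3 : x i ∉ Exc := by
          rw [hI] at hi
          exact (mem_filter.1 hi).2
        have q4 := hF3 (x i) q3 (b ^ ν * l ^ (e * N') + 1) (by omega) (by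
          unfold Va
          rw [Gc_ev]
          exact q2)
        unfold Va at q4 ⊢
        refine (pow_dvd_pow _ ?_).trans q4
        have q5 : b ^ o ≤ b ^ ν := Nat.pow_le_pow_right hb hoν
        have q6 : l ^ (e * i) ≤ l ^ (e * N') :=
          Nat.pow_le_pow_right hl.pos (Nat.mul_le_mul_left _ q1.le)
        have := Nat.mul_le_mul q5 q6
        omega)
      -- the exceptional indices
      have hex : ((W g).filter fun i => x i ∈ Exc).card ≤ ν * (b + a) := by
        have q1 : ((W g).filter fun i => x i ∈ Exc).card ≤ Exc.card :=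
          card_le_card_of_injOn x (fun i hi => (mem_filter.1 hi).2) (by
            intro i hi j hj hij
            exact hx i (hWr i (mem_filter.1 hi).1).1 j (hWr j (mem_filter.1 hj).1).1 hij)
        exact q1.trans (hExc.trans (Nat.mul_le_mul_right _ hoν))
      have hsplit := card_filter_add_card_filter_not (s := W g) (fun i => x i ∈ Exc)
      rw [hI] at hcI
      have hC : C₁ o ≤ ∑ o ∈ range (ν + 1), C₁ o :=
        single_le_sum (f := C₁) (fun _ _ => Nat.zero_le _) (mem_range.2 (by omega))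
      omega)
  exact ⟨y, hy1, hy2, fun g hg => hy3 ⟨g, hg⟩⟩

theorem y5 (h1 : S_selP.{u}) (h2 : S_capP.{u}) : S_dichP.{u} := by
  intro l d ν K' hl hd hν
  obtain ⟨b, hb, hcap⟩ := h2 l d ν hl hd hν
  obtain ⟨M₀, hM₀⟩ := h1 l d ν b K' hl hd hν
  obtain ⟨J, r, hJ, hcap⟩ := hcap M₀
  obtain ⟨N_B, j₁, hcap⟩ := hcap 1 le_rfl
  obtain ⟨N₀, hN₀⟩ := hM₀ r (J * l ^ r * b)
  refine ⟨N₀, ?_⟩
  intro k E _ _ _ _ _ _ _ t G _ hG hcard p q hp hq hco P hP hconj n x hseg hxP hn
  by_contra hno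
  refine hcap k E t G hG hcard p q hp hq hco P hP hconj (Or.inl rfl) ?_
  intro t' τ D hτ _ _ hτG
  rcases hN₀ k E τ D hτ p q ⟨hco, by rw [hq]; exact max_eq_right hp⟩ n x hseg hn G hcard.le hτG with h | h
  · exact absurd h hno
  · obtain ⟨y, hy1, hy2, hy3⟩ := h
    refine ⟨y, hy1, fun j => ?_, fun g hg => ?_⟩
    · obtain ⟨i, hi, hyi⟩ := hy2 j
      rw [hyi]
      exact hxP i hi
    · rw [mul_one]
      exact hy3 g hg

end Pool.Agent.Q210.SP.Y235
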