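import Pool.Agent.Q210.SM.Noniso

set_option autoImplicit false

/-! # Graphs with leaves attached -/

namespace Pool.Agent.Q210.SP

open Finset Pool.Agent.Q210.SM

/-- The vertices of the graph with `lab u` leaves at the vertex `u`. -/
abbrev PV {C : Type} (lab : C → ℕ) : Type := C ⊕ {z : C × ℕ // z.2 < lab z.1}

section

variable {C : Type}

/-- The leaves as a sigma type. -/
def leafEquiv (lab : C → ℕ) : {z : C × ℕ // z.2 < lab z.1} ≃ Σ u : C, Fin (lab u) where
  toFun z := ⟨z.1.1, ⟨z.1.2, z.2⟩⟩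
  invFun y := ⟨(y.1, y.2.1), y.2.2⟩
  left_inv _ := rfl
  right_inv _ := rfl

instance [Fintype C] (lab : C → ℕ) : Fintype {z : C × ℕ // z.2 < lab z.1} :=
  Fintype.ofEquiv _ (leafEquiv lab).symm

theorem card_PV [Fintype C] (lab : C → ℕ) :
    Fintype.card (PV lab) = Fintype.card C + ∑ u, lab u := by
  rw [Fintype.card_sum, Fintype.card_congr (leafEquiv lab), Fintype.card_sigma]
  simp

/-- One direction of the adjacency. -/
def prel (G : SimpleGraph C) (lab : C → ℕ) : PV lab → PV lab → Prop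
  | Sum.inl u, Sum.inl w => G.Adj u w
  | Sum.inl u, Sum.inr z => u = z.1.1
  | Sum.inr z, Sum.inl u => u = z.1.1
  | Sum.inr _, Sum.inr _ => False

/-- The graph `G` with `lab u` leaves at each vertex `u`. -/
def PG (G : SimpleGraph C) (lab : C → ℕ) : SimpleGraph (PV lab) where
  Adj := prel G lab
  symm := ⟨by
    rintro (u | z) (w | z') h
    · exact (show G.Adj u w from h).symm
    · exact h
    · exact h
    · exact h⟩
  loopless := ⟨by
    rintro (u | z) h
    · exact G.loopless.irrefl u h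
    · exact h⟩

/-- The action of a bijection which preserves the numbers of leaves. -/
def pact {lab : C → ℕ} (e : C ≃ C) (he : ∀ u, lab (e u) = lab u) : PV lab ≃ PV lab :=
  Equiv.sumCongr e
    { toFun := fun z => ⟨(e z.1.1, z.1.2), by rw [he]; exact z.2⟩
      invFun := fun z => ⟨(e.symm z.1.1, z.1.2), by
        have := he (e.symm z.1.1)
        rw [Equiv.apply_symm_apply] at this
        rw [← this]
        exact z.2⟩
      left_inv := fun z => Subtype.ext (Prod.ext (e.symm_apply_apply _) rfl)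
      right_inv := fun z => Subtype.ext (Prod.ext (e.apply_symm_apply _) rfl) }

end

section

variable {C : Type} {G : SimpleGraph C} {lab : C → ℕ}

/-- Each vertex of the core has two neighbours. -/
def Two (G : SimpleGraph C) (lab : C → ℕ) : Prop :=
  ∀ u : C, ∃ a b : PV lab, a ≠ b ∧ (PG G lab).Adj (Sum.inl u) a ∧ (PG G lab).Adj (Sum.inl u) b

theorem not_leaf (h : Two G lab) (u : C) : ¬ IsLeaf (PG G lab) (Sum.inl u) := by
  rintro ⟨v, hv⟩
  obtain ⟨a, b, hab, ha, hb⟩ := h u
  exact hab (((hv a).1 ha).trans ((hv b).1 hb).symm)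

theorem leaf (z : {z : C × ℕ // z.2 < lab z.1}) : IsLeaf (PG G lab) (Sum.inr z) := by
  refine ⟨Sum.inl z.1.1, ?_⟩
  rintro (u | z')
  · constructor
    · intro h
      have h1 : u = z.1.1 := h
      rw [h1]
    · intro h
      exact (Sum.inl_injective h : u = z.1.1)
  · exact ⟨fun h => (h : False).elim, fun h => by cases h⟩

theorem lc_inl (h : Two G lab) (u : C) : lc (PG G lab) (Sum.inl u) = lab u := by
  unfold lc
  have h1 : {w | (PG G lab).Adj (Sum.inl u) w ∧ IsLeaf (PG G lab) w} =
      (fun i : Fin (lab u) => (Sum.inr ⟨(u, i.1), i.2⟩ : PV lab)) '' Set.univ := by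
    ext w
    constructor
    · rintro ⟨h1, h2⟩
      cases w with
      | inl w => exact absurd h2 (not_leaf h w)
      | inr z =>
        obtain ⟨⟨u', i⟩, hz⟩ := z
        have h3 : u = u' := h1
        subst h3
        exact ⟨⟨i, hz⟩, trivial, rfl⟩
    · rintro ⟨i, _, rfl⟩
      exact ⟨rfl, leaf _⟩
  rw [h1, Set.ncard_image_of_injective, Set.ncard_univ, Nat.card_eq_fintype_card, Fintype.card_fin]
  intro i j hij
  have h2 := congrArg (fun z : {z : C × ℕ // z.2 < lab z.1} => z.1.2) (Sum.inr_injective hij)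
  exact Fin.ext h2

/-- An isomorphism induces one of the cores. -/
theorem exists_core {G' : SimpleGraph C} (h : Two G lab) (h' : Two G' lab)
    (ψ : PG G lab ≃g PG G' lab) : ∃ φ : C → C, Function.Injective φ ∧
      (∀ u, lab (φ u) = lab u) ∧ ∀ u w, G'.Adj (φ u) (φ w) ↔ G.Adj u w := by
  have h1 : ∀ u : C, ∃ w : C, ψ (Sum.inl u) = Sum.inl w := by
    intro u
    cases hw : ψ (Sum.inl u) with
    | inl w => exact ⟨w, rfl⟩
    | inr z =>
      exfalso
      have h2 : IsLeaf (PG G' lab) (ψ (Sum.inl u)) := by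
        rw [hw]
        exact leaf z
      exact not_leaf h u ((isLeaf_iso ψ _).1 h2)
  choose φ hφ using h1
  refine ⟨φ, ?_, ?_, ?_⟩
  · intro u w huw
    have h2 : ψ (Sum.inl u) = ψ (Sum.inl w) := by rw [hφ, hφ, huw]
    exact Sum.inl_injective (ψ.injective h2)
  · intro u
    have h2 := lc_iso ψ (Sum.inl u)
    rw [hφ, lc_inl h', lc_inl h] at h2
    exact h2
  · intro u w
    have h2 : (PG G' lab).Adj (ψ (Sum.inl u)) (ψ (Sum.inl w)) ↔
        (PG G lab).Adj (Sum.inl u) (Sum.inl w) := ψ.map_adj_iff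
    rw [hφ, hφ] at h2
    exact h2

end

end Pool.Agent.Q210.SP
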