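import Pool.Agent.Q210.SP.Act
import Pool.Agent.Y598.VT.FamWL

set_option autoImplicit false

/-! # The Weisfeiler-Leman dimension of the graphs -/

namespace Pool.Agent.Q210.SP

open Finset Pool.Agent.TH658.Dg Pool.Agent.H521R3.BI Pool.Agent.Q210.SM Pool.Agent.Y598.IM
  Pool.Agent.W185.SRG

variable {m p : ℕ}

/-- The edges at a vertex of the core. -/
def clv : Cx m → Finset (ME m)
  | Cx.fb v _ => univ.image (mport m v)
  | Cx.ou e _ => {e}
  | Cx.nn e _ => {e}
  | Cx.hb _ => ∅

/-- The edges at a vertex. -/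
def vlv : PV (lab m p) → Finset (ME m)
  | Sum.inl u => clv u
  | Sum.inr z => clv z.1.1

theorem clv_card (u : Cx m) : (clv u).card ≤ 8 := by
  cases u with
  | fb v S =>
    refine Finset.card_image_le.trans ?_
    rw [Finset.card_univ]
    rfl
  | ou e c =>
    show ({e} : Finset (ME m)).card ≤ 8
    rw [Finset.card_singleton]
    omega
  | nn e c =>
    show ({e} : Finset (ME m)).card ≤ 8
    rw [Finset.card_singleton]
    omega
  | hb g => exact Nat.zero_le _

theorem vlv_card (u : PV (lab m p)) : (vlv u).card ≤ 8 := by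
  rcases u with u | z
  · exact clv_card u
  · exact clv_card z.1.1

theorem clv_cact (M : ME m → ZMod 2) (u : Cx m) : clv (cact M u) = clv u := by
  cases u <;> rfl

theorem vlv_vact (M : ME m → ZMod 2) (u : PV (lab m p)) : vlv (vact M u) = vlv u := by
  rcases u with u | z
  · exact clv_cact M u
  · exact clv_cact M z.1.1

/-- The vectors which vanish on `W`. -/
def NV (W : Finset (ME m)) : AddSubgroup (ME m → ZMod 2) where
  carrier := {M | ∀ w ∈ W, M w = 0}
  add_mem' := by
    intro M M' h h' w hw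
    rw [Pi.add_apply, h w hw, h' w hw, add_zero]
  zero_mem' := fun w _ => rfl
  neg_mem' := by
    intro M h w hw
    rw [Pi.neg_apply, h w hw, neg_zero]

theorem cact_fix {M : ME m → ZMod 2} {u : Cx m} (h : M ∈ NV (clv u)) : cact M u = u := by
  cases u with
  | fb v S =>
    show Cx.fb v (fun j => S j + M (mport m v j)) = Cx.fb v S
    congr 1
    funext j
    rw [h (mport m v j) (Finset.mem_image_of_mem _ (Finset.mem_univ j)), add_zero]
  | ou e c =>
    show Cx.ou e (c + M e) = Cx.ou e c
    rw [h e (Finset.mem_singleton_self e), add_zero]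
  | nn e c =>
    show Cx.nn e (c + M e) = Cx.nn e c
    rw [h e (Finset.mem_singleton_self e), add_zero]
  | hb g => rfl

theorem cact_faithful {M : ME m → ZMod 2} {u : Cx m} (h : cact M u = u) : M ∈ NV (clv u) := by
  cases u with
  | fb v S =>
    have h1 : Cx.fb v (fun j => S j + M (mport m v j)) = Cx.fb v S := h
    injection h1 with _ h2
    intro w hw
    obtain ⟨j, _, rfl⟩ := Finset.mem_image.1 hw
    exact add_eq_left.1 (congrFun h2 j)
  | ou e c =>
    have h1 : Cx.ou e (c + M e) = Cx.ou e c := h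
    injection h1 with _ h2
    intro w hw
    rw [Finset.mem_singleton.1 hw]
    exact add_eq_left.1 h2
  | nn e c =>
    have h1 : Cx.nn e (c + M e) = Cx.nn e c := h
    injection h1 with _ h2
    intro w hw
    rw [Finset.mem_singleton.1 hw]
    exact add_eq_left.1 h2
  | hb g =>
    intro w hw
    exact absurd hw (Finset.notMem_empty w)

theorem vact_fix {M : ME m → ZMod 2} {u : PV (lab m p)} (h : M ∈ NV (vlv u)) : vact M u = u := by
  rcases u with u | ⟨⟨u, i⟩, hz⟩
  · rw [vact_inl, cact_fix h]
  · show Sum.inr (⟨(cact M u, i), _⟩ : {z : Cx m × ℕ // z.2 < lab m p z.1}) = _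
    congr 1
    apply Subtype.ext
    show (cact M u, i) = (u, i)
    rw [cact_fix h]

theorem vact_faithful {M : ME m → ZMod 2} {u : PV (lab m p)} (h : vact M u = u) :
    M ∈ NV (vlv u) := by
  rcases u with u | ⟨⟨u, i⟩, hz⟩
  · rw [vact_inl] at h
    exact cact_faithful (Sum.inl_injective h)
  · have h1 : (Sum.inr (⟨(cact M u, i), _⟩ : {z : Cx m × ℕ // z.2 < lab m p z.1}) :
        PV (lab m p)) = Sum.inr ⟨(u, i), hz⟩ := h
    have h2 := congrArg (fun z : {z : Cx m × ℕ // z.2 < lab m p z.1} => z.1.1)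
      (Sum.inr_injective h1)
    exact cact_faithful h2

variable [NeZero m]

/-- The local flows with demand `b`. -/
def SolV (s : ℕ) (b : MQ m → ZMod 2) (W : Finset (ME m)) : Set (ME m → ZMod 2) :=
  {M | ∀ y : MQ m → ZMod 2, wt y ≤ s → (∀ e, e ∉ W → cob (msrc m) (mtgt m) y e = 0) →
    ∑ e, cob (msrc m) (mtgt m) y e * M e = ∑ v, y v * b v}

theorem SolV_add {s : ℕ} {b b' : MQ m → ZMod 2} {W : Finset (ME m)} {M M' : ME m → ZMod 2}
    (h : M ∈ SolV s b W) (h' : M' ∈ SolV s b' W) : M + M' ∈ SolV s (b + b') W := by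
  intro y h1 h2
  simp only [Pi.add_apply, mul_add]
  rw [Finset.sum_add_distrib, Finset.sum_add_distrib, h y h1 h2, h' y h1 h2]

theorem SolV_neg {s : ℕ} {b : MQ m → ZMod 2} {W : Finset (ME m)} {M : ME m → ZMod 2}
    (h : M ∈ SolV s b W) : -M ∈ SolV s (-b) W := by
  intro y h1 h2
  simp only [Pi.neg_apply, mul_neg]
  rw [Finset.sum_neg_distrib, Finset.sum_neg_distrib, h y h1 h2]

/-- The homogeneous local flows. -/
def DV (s : ℕ) (W : Finset (ME m)) : AddSubgroup (ME m → ZMod 2) where
  carrier := SolV s 0 W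
  add_mem' := by
    intro M M' h h'
    have := SolV_add h h'
    rwa [add_zero] at this
  zero_mem' := by
    intro y _ _
    simp
  neg_mem' := by
    intro M h
    have := SolV_neg h
    rwa [neg_zero] at this

/-- The family of the graphs with their local isomorphisms. -/
noncomputable def tFam (m p K : ℕ) [NeZero m] (hE : Expd (ZMod 2) (msrc m) (mtgt m) (1600 * K) K)
    (hK : 1 ≤ K) :
    Fam (ME m → ZMod 2) (Finset (ME m)) (PV (lab m p)) (MQ m → ZMod 2) where
  N := NV
  D := DV (1600 * K)
  Sol b b' W := SolV (1600 * K) (b' - b) W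
  size W := W.card
  K := K
  N_anti W W' h M hM w hw := hM w (h hw)
  N_sup W W' M hM w hw := by
    rcases Finset.mem_union.1 hw with h | h
    · exact hM.1 w h
    · exact hM.2 w h
  N_bot := by
    rw [eq_top_iff]
    intro M _ w hw
    exact absurd hw (Finset.notMem_empty w)
  Sol_anti b b' W W' h M hM y h1 h2 := hM y h1 fun e he => h2 e fun he' => he (h he')
  sol_D b W M := by
    show M ∈ SolV (1600 * K) (b - b) W ↔ M ∈ SolV (1600 * K) 0 W
    rw [sub_self]
  neg_mem b b' W M hM := by
    have := SolV_neg (show M ∈ SolV (1600 * K) (b' - b) W from hM)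
    rwa [neg_sub] at this
  add_mem b b' b'' W M M' hM hM' := by
    have := SolV_add (show M ∈ SolV (1600 * K) (b' - b) W from hM)
      (show M' ∈ SolV (1600 * K) (b'' - b') W from hM')
    have h1 : b' - b + (b'' - b') = b'' - b := by abel
    rwa [h1] at this
  size_bot := Finset.card_empty
  size_mono W W' h := Finset.card_le_card h
  size_sup W W' := Finset.card_union_le _ _
  bot_sol b b' := by
    refine ⟨0, ?_⟩
    intro y h1 h2
    rw [hE.ker y h1 fun e => h2 e (Finset.notMem_empty e)]
    simp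
  extend b b' W W' hWW hW' M hM := by
    obtain ⟨M', hM', hag⟩ := hE.extend (b' - b) hWW hW' hM
    refine ⟨M', hM', fun w hw => ?_⟩
    rw [Pi.sub_apply, hag w hw, sub_self]
  act := vact
  act_zero u := vact_zero u
  act_add M M' u := vact_add M M' u
  lv := vlv
  lv_act M u := vlv_vact M u
  fix M x hM := vact_fix hM
  faithful M x hM := vact_faithful hM
  c := 8
  size_lv x := vlv_card x
  G b := (gr m p b).Adj
  G_inj b b' h := by
    funext v
    have h0 : ∑ j : Pt, (0 : Pt → ZMod 2) j = 0 := Finset.sum_eq_zero fun j _ => rfl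
    have h1 : (gr m p b).Adj (Sum.inl (Cx.fb v 0)) (Sum.inl (Cx.hb (hz v (b v)))) := by
      refine Or.inl (Or.inl ?_)
      rw [h0, zero_add]
    have h2 : (gr m p b').Adj (Sum.inl (Cx.fb v 0)) (Sum.inl (Cx.hb (hz v (b v)))) := by
      have h3 : (gr m p b).Adj (Sum.inl (Cx.fb v 0)) (Sum.inl (Cx.hb (hz v (b v)))) =
          (gr m p b').Adj (Sum.inl (Cx.fb v 0)) (Sum.inl (Cx.hb (hz v (b v)))) :=
        congrFun (congrFun h (Sum.inl (Cx.fb v 0))) (Sum.inl (Cx.hb (hz v (b v))))
      exact h3 ▸ h1
    rcases h2 with h2 | h2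
    · rcases h2 with h2 | h2 | h2
      · have h3 := hz_inj v h2
        rw [h0, zero_add] at h3
        exact h3
      · exact absurd (hz_fst _ _ _ _ h2.symm) (by decide)
      · exact absurd (hz_fst _ _ _ _ h2.symm) (by decide)
    · exact h2.elim
  adj b b' u w M hM := by
    refine gr_vact u w fun v S hv => ?_
    have h1 : univ.image (mport m v) ⊆ vlv u ⊔ vlv w := by
      rcases hv with rfl | rfl
      · exact Finset.subset_union_left
      · exact Finset.subset_union_right
    have h2 := flowSys_node hE (by omega) (b' - b) (W := vlv u ⊔ vlv w) (M := M) hM v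
      (fun e he => h1 (by
        obtain ⟨j, hj⟩ := (mport_inc m v e).1 he
        exact Finset.mem_image.2 ⟨j, Finset.mem_univ _, hj⟩))
    exact h2

theorem gr_wl {K j : ℕ} (hK : 6400 * K ≤ m ^ 2) (hj : 8 * (j + 1) ≤ K) (x x' : MQ m → ZMod 2) :
    WLEquivalent j (gr m p x) (gr m p x') :=
  (tFam m p K (marg_expd (ZMod 2) m K hK) (by omega)).wl (gr m p) (fun _ => rfl) x x' j hj

end Pool.Agent.Q210.SP
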