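import Pool.Agent.Q210.SM.Main
import Pool.Agent.W185.SRG.Defs

set_option autoImplicit false

/-! # Families of graphs indexed by bit vectors -/

namespace Pool.Agent.Q210.SP

open Finset Pool.Agent.Q210.SM Pool.Agent.W185.SRG

/-! ## Statistics of partitions: moving the edges at a set `F` -/

section Swap

variable {V : Type} {k : ℕ}

/-- The edges of a graph split by whether they meet `F`. -/
theorem edgesIn_split [Finite V] (G : SimpleGraph V) (F : Set V)
    (hF : ∀ u ∈ F, ∀ w ∈ F, ¬ G.Adj u w) (f : V → Fin k) (q : Sym2 (Fin k)) :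
    edgesIn G f q =
      {z : V × V | z.1 ∈ F ∧ G.Adj z.1 z.2 ∧ s(f z.1, f z.2) = q}.ncard +
      {e : Sym2 V | (e ∈ G.edgeSet ∧ e.map f = q) ∧ ¬ ∃ u ∈ F, u ∈ e}.ncard := by
  have h0 : edgesIn G f q = {e : Sym2 V | e ∈ G.edgeSet ∧ e.map f = q}.ncard := by
    rw [← Nat.card_coe_set_eq]
    rfl
  rw [h0, ← Set.ncard_inter_add_ncard_sdiff_eq_ncard _ {e : Sym2 V | ∃ u ∈ F, u ∈ e}]
  congr 1
  have h1 : {e : Sym2 V | e ∈ G.edgeSet ∧ e.map f = q} ∩ {e : Sym2 V | ∃ u ∈ F, u ∈ e} =
      (fun z : V × V => (s(z.1, z.2) : Sym2 V)) ''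
        {z : V × V | z.1 ∈ F ∧ G.Adj z.1 z.2 ∧ s(f z.1, f z.2) = q} := by
    ext e
    constructor
    · rintro ⟨⟨h1, h2⟩, u, hu, h3⟩
      obtain ⟨w, rfl⟩ := h3
      exact ⟨(u, w), ⟨hu, h1, h2⟩, rfl⟩
    · rintro ⟨⟨u, w⟩, ⟨h1, h2, h3⟩, rfl⟩
      exact ⟨⟨h2, h3⟩, u, h1, by simp⟩
  rw [h1, Set.InjOn.ncard_image]
  rintro ⟨u, w⟩ ⟨h1, h2, _⟩ ⟨u', w'⟩ ⟨h1', _, _⟩ h
  rcases Sym2.eq_iff.1 h with ⟨h4, h5⟩ | ⟨_, h5⟩
  · exact Prod.ext h4 h5
  · exfalso
    apply hF u h1 w _ h2
    have h6 : w = u' := h5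
    rw [h6]
    exact h1'

/-- Exchanging two vertices of the same part in the neighbourhoods of the vertices of an
independent set does not change the statistics. -/
theorem st_exchange [Finite V] [DecidableEq V] (G G' : SimpleGraph V) (F : Set V)
    (hF : ∀ u ∈ F, ∀ w ∈ F, ¬ G.Adj u w) (hF' : ∀ u ∈ F, ∀ w ∈ F, ¬ G'.Adj u w)
    (a b : V) (f : V → Fin k) (hab : f a = f b)
    (h1 : ∀ u ∈ F, ∀ w, G'.Adj u (Equiv.swap a b w) ↔ G.Adj u w)
    (h2 : ∀ u, u ∉ F → ∀ w, w ∉ F → (G'.Adj u w ↔ G.Adj u w)) : st G' f = st G f := by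
  have hsw : ∀ w, f (Equiv.swap a b w) = f w := by
    intro w
    rw [Equiv.swap_apply_def]
    split_ifs with h3 h4
    · rw [h3, hab]
    · rw [h4, hab]
    · rfl
  have he : ∀ q, edgesIn G' f q = edgesIn G f q := by
    intro q
    rw [edgesIn_split G F hF, edgesIn_split G' F hF']
    congr 1
    · have h3 : {z : V × V | z.1 ∈ F ∧ G'.Adj z.1 z.2 ∧ s(f z.1, f z.2) = q} =
          (fun z : V × V => (z.1, Equiv.swap a b z.2)) ''
          {z : V × V | z.1 ∈ F ∧ G.Adj z.1 z.2 ∧ s(f z.1, f z.2) = q} := by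
        ext ⟨u, w⟩
        constructor
        · rintro ⟨h3, h4, h5⟩
          refine ⟨(u, Equiv.swap a b w), ⟨h3, ?_, ?_⟩, ?_⟩
          · show G.Adj u (Equiv.swap a b w)
            rw [← h1 u h3, Equiv.swap_apply_self]
            exact h4
          · show s(f u, f (Equiv.swap a b w)) = q
            rw [hsw]
            exact h5
          · show (u, Equiv.swap a b (Equiv.swap a b w)) = (u, w)
            rw [Equiv.swap_apply_self]
        · rintro ⟨⟨u', w'⟩, ⟨h3, h4, h5⟩, h6⟩
          have e1 : u' = u := congrArg Prod.fst h6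
          have e2 : Equiv.swap a b w' = w := congrArg Prod.snd h6
          subst e1 e2
          refine ⟨h3, (h1 _ h3 _).2 h4, ?_⟩
          show s(f u', f (Equiv.swap a b w')) = q
          rw [hsw]
          exact h5
      rw [h3, Set.ncard_image_of_injective]
      rintro ⟨u, w⟩ ⟨u', w'⟩ h
      have e1 : u = u' := congrArg Prod.fst h
      have e2 : Equiv.swap a b w = Equiv.swap a b w' := congrArg Prod.snd h
      exact Prod.ext e1 ((Equiv.swap a b).injective e2)
    · congr 1
      ext e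
      induction e using Sym2.inductionOn with
      | _ u w =>
        constructor
        · rintro ⟨⟨h3, h4⟩, h5⟩
          refine ⟨⟨(h2 u ?_ w ?_).1 h3, h4⟩, h5⟩
          · exact fun hu => h5 ⟨u, hu, by simp⟩
          · exact fun hu => h5 ⟨w, hu, by simp⟩
        · rintro ⟨⟨h3, h4⟩, h5⟩
          refine ⟨⟨(h2 u ?_ w ?_).2 h3, h4⟩, h5⟩
          · exact fun hu => h5 ⟨u, hu, by simp⟩
          · exact fun hu => h5 ⟨w, hu, by simp⟩
  unfold st
  refine Prod.ext rfl (Prod.ext ?_ ?_)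
  · funext q
    exact he q
  · funext q
    have h3 := nonEdgesIn_add G' f q
    have h4 := nonEdgesIn_add G f q
    rw [he] at h3
    show nonEdgesIn G' f q = nonEdgesIn G f q
    omega

end Swap

/-! ## The two halves of a family have the same statistics -/

/-- Let the graphs `T x`, for bit vectors `x`, be isomorphic if the sums of the bits agree, and let
for each partition some bit be irrelevant for the statistics. Then all graphs of the family have the
same number of partitions with given statistics. -/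
theorem cn_par {V Q : Type} [Fintype V] [DecidableEq V] [Fintype Q] [DecidableEq Q] {k : ℕ}
    (T : (Q → ZMod 2) → SimpleGraph V)
    (hiso : ∀ x x' : Q → ZMod 2, ∑ v, x v = ∑ v, x' v → Nonempty (T x ≃g T x'))
    (hsw : ∀ f : V → Fin k, ∃ v, ∀ x, st (T (x + Pi.single v 1)) f = st (T x) f)
    (x0 x1 : Q → ZMod 2) (h0 : ∑ v, x0 v = 0) (h1 : ∑ v, x1 v = 1)
    (s : (Fin k → ℕ) × (Sym2 (Fin k) → ℕ) × (Sym2 (Fin k) → ℕ)) :
    cn k (T x0) s = cn k (T x1) s := by
  classical
  have hsum : ∀ (x : Q → ZMod 2) (v : Q), ∑ u, (x + Pi.single v 1 : Q → ZMod 2) u = ∑ u, x u + 1 := by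
    intro x v
    simp only [Pi.add_apply]
    rw [Finset.sum_add_distrib, Finset.sum_pi_single']
    simp
  have h11 : (1 : ZMod 2) + 1 = 0 := by decide
  have hinv : ∀ (x : Q → ZMod 2) (v : Q), x + Pi.single v 1 + Pi.single v 1 = x := by
    intro x v
    rw [add_assoc, ← Pi.single_add, h11, Pi.single_zero, add_zero]
  have hkey : ∀ (F : (Q → ZMod 2) → ℤ) (v : Q), (∀ x, F (x + Pi.single v 1) = F x) →
      ∑ x ∈ univ.filter (fun x : Q → ZMod 2 => ∑ u, x u = 0), F x =
        ∑ x ∈ univ.filter (fun x : Q → ZMod 2 => ∑ u, x u = 1), F x := by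
    intro F v hF
    refine Finset.sum_nbij' (fun x => x + Pi.single v 1) (fun x => x + Pi.single v 1)
      ?_ ?_ ?_ ?_ ?_
    · intro x hx
      rw [Finset.mem_filter] at hx ⊢
      refine ⟨Finset.mem_univ _, ?_⟩
      rw [hsum, hx.2, zero_add]
    · intro x hx
      rw [Finset.mem_filter] at hx ⊢
      refine ⟨Finset.mem_univ _, ?_⟩
      rw [hsum, hx.2, h11]
    · intro x _
      exact hinv x v
    · intro x _
      exact hinv x v
    · intro x _
      exact (hF x).symm
  have hL : ∑ x ∈ univ.filter (fun x : Q → ZMod 2 => ∑ u, x u = 0), cn k (T x) s =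
      ∑ x ∈ univ.filter (fun x : Q → ZMod 2 => ∑ u, x u = 1), cn k (T x) s := by
    unfold cn
    rw [Finset.sum_comm, Finset.sum_comm (s := univ.filter (fun x : Q → ZMod 2 => ∑ u, x u = 1))]
    refine Finset.sum_congr rfl fun f _ => ?_
    obtain ⟨v, hv⟩ := hsw f
    refine hkey (fun x => if st (T x) f = s then 1 else 0) v ?_
    intro x
    simp only [hv]
  have hA : ∑ x ∈ univ.filter (fun x : Q → ZMod 2 => ∑ u, x u = 0), cn k (T x) s =
      (univ.filter (fun x : Q → ZMod 2 => ∑ u, x u = 0)).card * cn k (T x0) s := by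
    rw [Finset.sum_congr rfl (g := fun _ => cn k (T x0) s), Finset.sum_const, nsmul_eq_mul]
    intro x hx
    obtain ⟨φ⟩ := hiso x x0 ((Finset.mem_filter.1 hx).2.trans h0.symm)
    exact cn_iso φ s
  have hB : ∑ x ∈ univ.filter (fun x : Q → ZMod 2 => ∑ u, x u = 1), cn k (T x) s =
      (univ.filter (fun x : Q → ZMod 2 => ∑ u, x u = 1)).card * cn k (T x1) s := by
    rw [Finset.sum_congr rfl (g := fun _ => cn k (T x1) s), Finset.sum_const, nsmul_eq_mul]
    intro x hx
    obtain ⟨φ⟩ := hiso x x1 ((Finset.mem_filter.1 hx).2.trans h1.symm)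
    exact cn_iso φ s
  have hq : Nonempty Q := by
    by_contra hq
    rw [not_nonempty_iff] at hq
    rw [Finset.univ_eq_empty, Finset.sum_empty] at h1
    exact absurd h1 (by decide)
  obtain ⟨v⟩ := hq
  have hC := hkey (fun _ => 1) v fun _ => rfl
  rw [Finset.sum_const, Finset.sum_const, nsmul_eq_mul, nsmul_eq_mul, mul_one, mul_one] at hC
  rw [hA, hB, hC] at hL
  have hpos : ((univ.filter (fun x : Q → ZMod 2 => ∑ u, x u = 1)).card : ℤ) ≠ 0 := by
    rw [Nat.cast_ne_zero, Finset.card_ne_zero]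
    exact ⟨x1, Finset.mem_filter.2 ⟨Finset.mem_univ _, h1⟩⟩
  exact mul_left_cancel₀ hpos hL

/-! ## Transport to the vertex set `Fin n` -/

theorem wl_iso {V W : Type} [Fintype V] [Fintype W] {G : SimpleGraph V} {H : SimpleGraph W}
    (φ : G ≃g H) {k : ℕ} (t : ℕ) (S : Fin k → V) : wl G k t S = wl H k t (φ ∘ S) := by
  induction t generalizing S with
  | zero =>
    unfold wl isoType
    refine Prod.ext ?_ ?_
    · funext i j
      exact propext φ.injective.eq_iff.symm
    · funext i j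
      exact propext φ.map_adj_iff.symm
  | succ t ih =>
    unfold wl
    refine Prod.ext (ih S) ?_
    show Multiset.map _ _ = Multiset.map _ _
    have h : (univ : Finset W) = (univ : Finset V).map φ.toEquiv.toEmbedding := by simp
    rw [h, Finset.map_val, Multiset.map_map]
    refine Multiset.map_congr rfl fun x _ => ?_
    funext i
    rw [ih]
    show wl H k t _ = wl H k t _
    congr 1
    funext j
    by_cases hj : j = i
    · subst hj
      simp
    · simp [Function.update_of_ne hj]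

theorem wle_iso {V W : Type} [Fintype V] [Fintype W] {G : SimpleGraph V} {H : SimpleGraph W}
    (φ : G ≃g H) (k : ℕ) : WLEquivalent k G H :=
  ⟨Equiv.arrowCongr (Equiv.refl _) φ.toEquiv, fun t S => wl_iso φ t S⟩

theorem wle_symm {V W : Type} [Fintype V] [Fintype W] {G : SimpleGraph V} {H : SimpleGraph W}
    {k : ℕ} (h : WLEquivalent k G H) : WLEquivalent k H G := by
  obtain ⟨ψ, hψ⟩ := h
  refine ⟨ψ.symm, fun t S => ?_⟩
  rw [hψ, Equiv.apply_symm_apply]

theorem wle_trans {U V W : Type} [Fintype U] [Fintype V] [Fintype W] {G : SimpleGraph U}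
    {H : SimpleGraph V} {I : SimpleGraph W} {k : ℕ} (h : WLEquivalent k G H)
    (h' : WLEquivalent k H I) : WLEquivalent k G I := by
  obtain ⟨ψ, hψ⟩ := h
  obtain ⟨ψ', hψ'⟩ := h'
  refine ⟨ψ.trans ψ', fun t S => ?_⟩
  rw [hψ, hψ']
  rfl

/-- Equal numbers of partitions with given statistics, on another vertex set. -/
theorem stats_of_cn {V : Type} [Fintype V] [DecidableEq V] {k n : ℕ} {G0 H0 : SimpleGraph V}
    {G H : SimpleGraph (Fin n)} (φG : G0 ≃g G) (φH : H0 ≃g H)
    (hcn : ∀ s, cn k G0 s = cn k H0 s) :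
    (∃ Φ : Equiv.Perm (Fin n → Fin k), ∀ f : Fin n → Fin k,
        (∀ i, size (Φ f) i = size f i) ∧ ∀ q, edgesIn H (Φ f) q = edgesIn G f q) ∧
      ∀ (R : Type) [CommSemiring R] (α : Fin k → R) (β γ : Sym2 (Fin k) → R),
        partitionFunction G α β γ = partitionFunction H α β γ := by
  classical
  have hfib : ∀ s, Nat.card {f : Fin n → Fin k // st G f = s} =
      Nat.card {f : Fin n → Fin k // st H f = s} := by
    intro s
    have h2 : ((Nat.card {f : Fin n → Fin k // st G f = s} : ℕ) : ℤ) =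
        ((Nat.card {f : Fin n → Fin k // st H f = s} : ℕ) : ℤ) := by
      rw [card_eq_cn, card_eq_cn, ← cn_iso φG, ← cn_iso φH]
      exact hcn s
    exact_mod_cast h2
  obtain ⟨Φ, hΦ⟩ := exists_equiv_of_fibers (fun f : Fin n → Fin k => st G f)
    (fun f : Fin n → Fin k => st H f) hfib
  refine ⟨⟨Φ, fun f => ⟨fun i => ?_, fun q => ?_⟩⟩, ?_⟩
  · exact congrFun (congrArg (fun s => s.1) (hΦ f)) i
  · exact congrFun (congrArg (fun s => s.2.1) (hΦ f)) q
  · intro R _ α β γ
    rw [partitionFunction_eq, partitionFunction_eq]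
    refine Fintype.sum_equiv Φ _ _ ?_
    intro f
    have h5 : st H (Φ f) = st G f := hΦ f
    rw [h5]

end Pool.Agent.Q210.SP
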