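import Pool.Agent.Q210.SP.Core
import Pool.Agent.Q210.SP.Par

set_option autoImplicit false

/-! # The action of the flows -/

namespace Pool.Agent.Q210.SP

open Finset Pool.Agent.TH658.Dg Pool.Agent.H521R3.BI Pool.Agent.Q210.SM

variable {m p : ℕ}

/-- The action of a flow on the core. -/
def cact (M : ME m → ZMod 2) : Cx m → Cx m
  | Cx.fb v S => Cx.fb v (fun j => S j + M (mport m v j))
  | Cx.ou e c => Cx.ou e (c + M e)
  | Cx.nn e c => Cx.nn e (c + M e)
  | Cx.hb h => Cx.hb h

theorem cact_zero (u : Cx m) : cact 0 u = u := by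
  cases u with
  | fb v S =>
    show Cx.fb v (fun j => S j + 0) = _
    simp only [add_zero]
  | ou e c =>
    show Cx.ou e (c + 0) = _
    rw [add_zero]
  | nn e c =>
    show Cx.nn e (c + 0) = _
    rw [add_zero]
  | hb h => rfl

theorem cact_add (M M' : ME m → ZMod 2) (u : Cx m) : cact (M + M') u = cact M (cact M' u) := by
  cases u with
  | fb v S =>
    show Cx.fb v (fun j => S j + (M (mport m v j) + M' (mport m v j))) =
      Cx.fb v (fun j => S j + M' (mport m v j) + M (mport m v j))
    congr 1
    funext j
    ring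
  | ou e c =>
    show Cx.ou e (c + (M e + M' e)) = Cx.ou e (c + M' e + M e)
    congr 1
    ring
  | nn e c =>
    show Cx.nn e (c + (M e + M' e)) = Cx.nn e (c + M' e + M e)
    congr 1
    ring
  | hb h => rfl

/-- The action as a permutation. -/
def cactE (M : ME m → ZMod 2) : Cx m ≃ Cx m where
  toFun := cact M
  invFun := cact (-M)
  left_inv u := by rw [← cact_add, neg_add_cancel, cact_zero]
  right_inv u := by rw [← cact_add, add_neg_cancel, cact_zero]

theorem lab_cact (M : ME m → ZMod 2) (u : Cx m) : lab m p (cactE M u) = lab m p u := by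
  cases u <;> rfl

/-- The action on the vertices of the graph. -/
def vact (M : ME m → ZMod 2) : PV (lab m p) ≃ PV (lab m p) := pact (cactE M) (lab_cact M)

theorem vact_inl (M : ME m → ZMod 2) (u : Cx m) :
    (vact M (Sum.inl u) : PV (lab m p)) = Sum.inl (cact M u) := rfl

theorem vact_zero (u : PV (lab m p)) : vact 0 u = u := by
  rcases u with u | ⟨⟨u, i⟩, h⟩
  · rw [vact_inl, cact_zero]
  · show Sum.inr (⟨(cact 0 u, i), _⟩ : {z : Cx m × ℕ // z.2 < lab m p z.1}) = _
    congr 1
    apply Subtype.ext
    show (cact 0 u, i) = (u, i)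
    rw [cact_zero]

theorem vact_add (M M' : ME m → ZMod 2) (u : PV (lab m p)) :
    vact (M + M') u = vact M (vact M' u) := by
  rcases u with u | ⟨⟨u, i⟩, h⟩
  · rw [vact_inl, vact_inl, vact_inl, cact_add]
  · show Sum.inr (⟨(cact (M + M') u, i), _⟩ : {z : Cx m × ℕ // z.2 < lab m p z.1}) =
      Sum.inr (⟨(cact M (cact M' u), i), _⟩ : {z : Cx m × ℕ // z.2 < lab m p z.1})
    congr 1
    apply Subtype.ext
    show (cact (M + M') u, i) = (cact M (cact M' u), i)
    rw [cact_add]

theorem crel_cact [NeZero m] {x x' : MQ m → ZMod 2} {M : ME m → ZMod 2} (u w : Cx m)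
    (h : ∀ v S, u = Cx.fb v S → bd (msrc m) (mtgt m) M v = x' v - x v) :
    crel x u w ↔ crel x' (cact M u) (cact M w) := by
  cases u with
  | fb v S =>
    cases w with
    | fb v' S' => exact Iff.rfl
    | ou e c =>
      show (∃ k, e = mport m v (Sum.inr k) ∧ c = S (Sum.inr k)) ↔
        ∃ k, e = mport m v (Sum.inr k) ∧ c + M e = S (Sum.inr k) + M (mport m v (Sum.inr k))
      refine exists_congr fun k => and_congr_right fun hk => ?_
      rw [← hk, add_left_inj]
    | nn e c =>
      show (∃ k, e = mport m v (Sum.inl k) ∧ c = S (Sum.inl k)) ↔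
        ∃ k, e = mport m v (Sum.inl k) ∧ c + M e = S (Sum.inl k) + M (mport m v (Sum.inl k))
      refine exists_congr fun k => and_congr_right fun hk => ?_
      rw [← hk, add_left_inj]
    | hb g =>
      have h1 := h v S rfl
      have h2 : ∑ j, (S j + M (mport m v j)) + x' v = ∑ j, S j + x v := by
        rw [Finset.sum_add_distrib, port_sum, h1]
        have e1 := CharTwo.add_self_eq_zero (x' v)
        have e2 := CharTwo.add_self_eq_zero (x v)
        linear_combination e1 - e2
      show (g = hz v (∑ j, S j + x v) ∨ g = some (1, v.1) ∨ g = some (2, v.2)) ↔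
        (g = hz v (∑ j, (S j + M (mport m v j)) + x' v) ∨ g = some (1, v.1) ∨ g = some (2, v.2))
      rw [h2]
  | ou e c =>
    cases w with
    | fb v' S' => exact Iff.rfl
    | ou e' c' => exact Iff.rfl
    | nn e' c' =>
      show (e = e' ∧ c = c') ↔ (e = e' ∧ c + M e = c' + M e')
      refine and_congr_right fun he => ?_
      rw [he, add_left_inj]
    | hb g => exact Iff.rfl
  | nn e c =>
    cases w with
    | fb v' S' => exact Iff.rfl
    | ou e' c' => exact Iff.rfl
    | nn e' c' => exact Iff.rfl
    | hb g => exact Iff.rfl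
  | hb g =>
    cases w with
    | fb v' S' => exact Iff.rfl
    | ou e' c' => exact Iff.rfl
    | nn e' c' => exact Iff.rfl
    | hb g => exact Iff.rfl

/-- The graph with the bits `x`. -/
def gr (m p : ℕ) (x : MQ m → ZMod 2) : SimpleGraph (PV (lab m p)) := PG (core x) (lab m p)

theorem gr_vact [NeZero m] {x x' : MQ m → ZMod 2} {M : ME m → ZMod 2} (u w : PV (lab m p))
    (h : ∀ v S, u = Sum.inl (Cx.fb v S) ∨ w = Sum.inl (Cx.fb v S) →
      bd (msrc m) (mtgt m) M v = x' v - x v) :
    (gr m p x).Adj u w ↔ (gr m p x').Adj (vact M u) (vact M w) := by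
  rcases u with u | z
  · rcases w with w | z'
    · show (crel x u w ∨ crel x w u) ↔
        (crel x' (cact M u) (cact M w) ∨ crel x' (cact M w) (cact M u))
      rw [crel_cact (M := M) u w fun v S hu => h v S (Or.inl (by rw [hu])),
        crel_cact (M := M) w u fun v S hu => h v S (Or.inr (by rw [hu]))]
    · show u = z'.1.1 ↔ cactE M u = cactE M z'.1.1
      exact (cactE M).injective.eq_iff.symm
  · rcases w with w | z'
    · show w = z.1.1 ↔ cactE M w = cactE M z.1.1
      exact (cactE M).injective.eq_iff.symm
    · exact Iff.rfl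

/-- Graphs whose bits have the same sum are isomorphic. -/
theorem gr_iso [NeZero m] (x x' : MQ m → ZMod 2) (hx : ∑ v, x v = ∑ v, x' v) :
    Nonempty (gr m p x ≃g gr m p x') := by
  obtain ⟨M, hM⟩ := bd_surj (x' - x) (by
    simp only [Pi.sub_apply]
    rw [Finset.sum_sub_distrib, hx, sub_self])
  exact ⟨⟨vact M, fun {u w} => (gr_vact u w fun v S _ => hM v).symm⟩⟩

/-- Graphs whose bits have different sums are not isomorphic. -/
theorem gr_not_iso [NeZero m] (x x' : MQ m → ZMod 2) (hx : ∑ v, x v ≠ ∑ v, x' v) :
    ¬ Nonempty (gr m p x ≃g gr m p x') := by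
  rintro ⟨ψ⟩
  obtain ⟨φ, h1, h2, h3⟩ := exists_core (two_core x) (two_core x') ψ
  exact hx (sum_eq_of_iso x x' φ h1 h2 h3)

theorem hz_one (v : MQ m) (hv : v.1 ≠ v.2) : hz v 1 = some (0, v.2) := by
  have h10 : (1 : ZMod 2) ≠ 0 := by decide
  unfold hz
  rw [if_neg h10, if_neg hv]

theorem hz_zero (v : MQ m) : hz v 0 = some (0, v.1) := by
  unfold hz
  rw [if_pos rfl]

/-- If two hubs lie in the same part, then flipping the bit of the pair of the hubs does not change
the statistics. -/
theorem st_flip [NeZero m] {k : ℕ} (f : PV (lab m p) → Fin k) (v : MQ m) (hv : v.1 ≠ v.2)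
    (hf : f (Sum.inl (Cx.hb (some (0, v.1)))) = f (Sum.inl (Cx.hb (some (0, v.2)))))
    (x : MQ m → ZMod 2) : st (gr m p (x + Pi.single v 1)) f = st (gr m p x) f := by
  classical
  have hA : ∀ (x : MQ m → ZMod 2) (u : PV (lab m p)),
      u ∈ {u : PV (lab m p) | ∃ S, u = Sum.inl (Cx.fb v S)} → ∀ w : PV (lab m p),
      w ∈ {u : PV (lab m p) | ∃ S, u = Sum.inl (Cx.fb v S)} → ¬ (gr m p x).Adj u w := by
    rintro x u ⟨S, rfl⟩ w ⟨S', rfl⟩ h
    exact (h.elim id id : False)
  have h11 : (1 : ZMod 2) + 1 = 0 := by decide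
  refine st_exchange (gr m p x) (gr m p (x + Pi.single v 1))
    {u : PV (lab m p) | ∃ S, u = Sum.inl (Cx.fb v S)} (hA _) (hA _)
    (Sum.inl (Cx.hb (some (0, v.1)))) (Sum.inl (Cx.hb (some (0, v.2)))) f hf ?_ ?_
  · rintro u ⟨S, rfl⟩ w
    have hx1 : (x + Pi.single v 1 : MQ m → ZMod 2) v = x v + 1 := by
      rw [Pi.add_apply, Pi.single_eq_same]
    have hc : ∀ a : ZMod 2, a = 0 ∨ a = 1 := by decide
    have hadj : ∀ (x : MQ m → ZMod 2) (g : Option (Fin 3 × ZMod m)),
        (gr m p x).Adj (Sum.inl (Cx.fb v S)) (Sum.inl (Cx.hb g)) ↔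
          (g = hz v (∑ j, S j + x v) ∨ g = some (1, v.1) ∨ g = some (2, v.2)) := by
      intro x g
      exact ⟨fun h => h.resolve_right id, Or.inl⟩
    have n1 : some ((0 : Fin 3), v.1) ≠ some (1, v.1) := by simp
    have n2 : some ((0 : Fin 3), v.1) ≠ some (2, v.2) := by simp
    have n3 : some ((0 : Fin 3), v.2) ≠ some (1, v.1) := by simp
    have n4 : some ((0 : Fin 3), v.2) ≠ some (2, v.2) := by simp
    have n5 : some ((0 : Fin 3), v.1) ≠ some (0, v.2) := by simpa using hv
    by_cases hw1 : w = Sum.inl (Cx.hb (some (0, v.1)))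
    · subst hw1
      rw [Equiv.swap_apply_left, hadj, hadj, hx1, ← add_assoc]
      rcases hc (∑ j, S j + x v) with h0 | h0 <;> rw [h0]
      · rw [zero_add, hz_one v hv, hz_zero]
        simp [n1, n2, n3, n4]
      · rw [h11, hz_one v hv, hz_zero]
        simp [n1, n2, n3, n4, n5, n5.symm, hv, hv.symm]
    · by_cases hw2 : w = Sum.inl (Cx.hb (some (0, v.2)))
      · subst hw2
        rw [Equiv.swap_apply_right, hadj, hadj, hx1, ← add_assoc]
        rcases hc (∑ j, S j + x v) with h0 | h0 <;> rw [h0]
        · rw [zero_add, hz_one v hv, hz_zero]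
          simp [n1, n2, n3, n4, n5, n5.symm, hv, hv.symm]
        · rw [h11, hz_one v hv, hz_zero]
          simp [n1, n2, n3, n4]
      · rw [Equiv.swap_apply_of_ne_of_ne hw1 hw2]
        rcases w with w | z
        · cases w with
          | fb v' S' => exact Iff.rfl
          | ou e c => exact Iff.rfl
          | nn e c => exact Iff.rfl
          | hb g =>
            rw [hadj, hadj]
            have g1 : ∀ c, g ≠ hz v c := by
              intro c h
              rcases hc c with rfl | rfl
              · rw [hz_zero] at h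
                exact hw1 (by rw [h])
              · rw [hz_one v hv] at h
                exact hw2 (by rw [h])
            constructor
            · rintro (h | h)
              · exact absurd h (g1 _)
              · exact Or.inr h
            · rintro (h | h)
              · exact absurd h (g1 _)
              · exact Or.inr h
        · exact Iff.rfl
  · intro u hu w hw
    rcases u with u | z
    · rcases w with w | z'
      · have key : ∀ u w : Cx m, (¬ ∃ S, (Sum.inl u : PV (lab m p)) = Sum.inl (Cx.fb v S)) →
            (crel (x + Pi.single v 1) u w ↔ crel x u w) := by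
          intro u w hu
          cases u with
          | fb v' S' =>
            cases w with
            | fb v'' S'' => exact Iff.rfl
            | ou e c => exact Iff.rfl
            | nn e c => exact Iff.rfl
            | hb g =>
              have hne : v' ≠ v := fun h => hu ⟨S', by rw [h]⟩
              show (g = hz v' (∑ j, S' j + (x + Pi.single v 1 : MQ m → ZMod 2) v') ∨ _) ↔
                (g = hz v' (∑ j, S' j + x v') ∨ _)
              rw [Pi.add_apply, Pi.single_eq_of_ne hne, add_zero]
          | ou e c =>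
            cases w with
            | fb v'' S'' => exact Iff.rfl
            | ou e c => exact Iff.rfl
            | nn e c => exact Iff.rfl
            | hb g => exact Iff.rfl
          | nn e c =>
            cases w with
            | fb v'' S'' => exact Iff.rfl
            | ou e c => exact Iff.rfl
            | nn e c => exact Iff.rfl
            | hb g => exact Iff.rfl
          | hb g =>
            cases w with
            | fb v'' S'' => exact Iff.rfl
            | ou e c => exact Iff.rfl
            | nn e c => exact Iff.rfl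
            | hb g => exact Iff.rfl
        show (crel (x + Pi.single v 1) u w ∨ crel (x + Pi.single v 1) w u) ↔
          (crel x u w ∨ crel x w u)
        rw [key u w hu, key w u hw]
      · exact Iff.rfl
    · rcases w with w | z'
      · exact Iff.rfl
      · exact Iff.rfl

/-- The statistics of the partitions into fewer than `m` parts agree. -/
theorem cn_gr [NeZero m] {k : ℕ} (hk : k < m) [DecidableEq (PV (lab m p))]
    (x0 x1 : MQ m → ZMod 2) (h0 : ∑ v, x0 v = 0) (h1 : ∑ v, x1 v = 1)
    (s : (Fin k → ℕ) × (Sym2 (Fin k) → ℕ) × (Sym2 (Fin k) → ℕ)) :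
    cn k (gr m p x0) s = cn k (gr m p x1) s := by
  refine cn_par (gr m p) gr_iso ?_ x0 x1 h0 h1 s
  intro f
  obtain ⟨a, b, hab, hf⟩ := Fintype.exists_ne_map_eq_of_card_lt
    (fun i : ZMod m => f (Sum.inl (Cx.hb (some (0, i))))) (by
      rw [ZMod.card, Fintype.card_fin]
      exact hk)
  exact ⟨(a, b), fun x => st_flip f (a, b) hab hf x⟩

end Pool.Agent.Q210.SP
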