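import Pool.Agent.Q210.SP.Net
import Pool.Agent.Q210.SP.Pen

set_option autoImplicit false

/-! # The core of the graphs -/

namespace Pool.Agent.Q210.SP

open Finset Pool.Agent.TH658.Dg Pool.Agent.H521R3.BI Pool.Agent.Q210.SM

/-- The vertices of the core. -/
inductive Cx (m : ℕ) : Type
  /-- The fibre of the node `v`. -/
  | fb (v : MQ m) (S : Pt → ZMod 2)
  /-- The vertices of the edge `e` at its tail. -/
  | ou (e : ME m) (c : ZMod 2)
  /-- The vertices of the edge `e` at its head. -/
  | nn (e : ME m) (c : ZMod 2)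
  /-- The hubs. -/
  | hb (h : Option (Fin 3 × ZMod m))

variable {m : ℕ}

/-- The vertices of the core as a sum. -/
def cxEquiv (m : ℕ) : Cx m ≃ (MQ m × (Pt → ZMod 2)) ⊕ (ME m × ZMod 2) ⊕ (ME m × ZMod 2) ⊕
    Option (Fin 3 × ZMod m) where
  toFun
    | Cx.fb v S => Sum.inl (v, S)
    | Cx.ou e c => Sum.inr (Sum.inl (e, c))
    | Cx.nn e c => Sum.inr (Sum.inr (Sum.inl (e, c)))
    | Cx.hb h => Sum.inr (Sum.inr (Sum.inr h))
  invFun
    | Sum.inl (v, S) => Cx.fb v S
    | Sum.inr (Sum.inl (e, c)) => Cx.ou e c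
    | Sum.inr (Sum.inr (Sum.inl (e, c))) => Cx.nn e c
    | Sum.inr (Sum.inr (Sum.inr h)) => Cx.hb h
  left_inv u := by cases u <;> rfl
  right_inv u := by
    rcases u with ⟨v, S⟩ | ⟨e, c⟩ | ⟨e, c⟩ | h <;> rfl

instance [NeZero m] : Fintype (Cx m) := Fintype.ofEquiv _ (cxEquiv m).symm

/-- The two hubs which belong to the bit of the node `v`. -/
def hz (v : MQ m) (c : ZMod 2) : Option (Fin 3 × ZMod m) :=
  if c = 0 then some (0, v.1) else if v.1 = v.2 then none else some (0, v.2)

theorem hz_inj (v : MQ m) {c c' : ZMod 2} (h : hz v c = hz v c') : c = c' := by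
  have hc : ∀ a : ZMod 2, a = 0 ∨ a = 1 := by decide
  have h10 : (1 : ZMod 2) ≠ 0 := by decide
  have key : hz v 0 ≠ hz v 1 := by
    unfold hz
    rw [if_pos rfl, if_neg h10]
    split_ifs with h1
    · exact fun h => by cases h
    · intro h2
      exact h1 (congrArg Prod.snd (Option.some.inj h2))
  rcases hc c with rfl | rfl <;> rcases hc c' with rfl | rfl
  · rfl
  · exact absurd h key
  · exact absurd h.symm key
  · rfl

theorem hz_fst (v : MQ m) (c : ZMod 2) (t : Fin 3) (a : ZMod m) (h : some (t, a) = hz v c) :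
    t = 0 := by
  unfold hz at h
  split_ifs at h with h1 h2
  · exact congrArg Prod.fst (Option.some.inj h)
  · exact congrArg Prod.fst (Option.some.inj h)

/-- One direction of the adjacency. -/
def crel (x : MQ m → ZMod 2) : Cx m → Cx m → Prop
  | Cx.fb v S, Cx.ou e c => ∃ k, e = mport m v (Sum.inr k) ∧ c = S (Sum.inr k)
  | Cx.fb v S, Cx.nn e c => ∃ k, e = mport m v (Sum.inl k) ∧ c = S (Sum.inl k)
  | Cx.fb v S, Cx.hb h => h = hz v (∑ j, S j + x v) ∨ h = some (1, v.1) ∨ h = some (2, v.2)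
  | Cx.ou e c, Cx.nn e' c' => e = e' ∧ c = c'
  | _, _ => False

/-- The core of the graph with the bits `x`. -/
def core (x : MQ m → ZMod 2) : SimpleGraph (Cx m) where
  Adj u w := crel x u w ∨ crel x w u
  symm := ⟨fun _ _ h => h.symm⟩
  loopless := ⟨by
    rintro (⟨v, S⟩ | ⟨e, c⟩ | ⟨e, c⟩ | h) h'
    · exact h'.elim id id
    · exact h'.elim id id
    · exact h'.elim id id
    · exact h'.elim id id⟩

/-- The numbers of leaves. -/
def lab (m p : ℕ) : Cx m → ℕ
  | Cx.fb _ _ => 0
  | Cx.ou e _ => e.1.1 + 1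
  | Cx.nn e _ => e.1.1 + 5
  | Cx.hb none => 9 + 3 * m + p
  | Cx.hb (some (t, a)) => 9 + 3 * a.val + t.1

theorem lab_hb [NeZero m] {p : ℕ} (h : Option (Fin 3 × ZMod m)) (u : Cx m)
    (hu : lab m p u = lab m p (Cx.hb h)) : u = Cx.hb h := by
  have h9 : 9 ≤ lab m p (Cx.hb h) := by
    rcases h with _ | ⟨t, a⟩
    · show 9 ≤ 9 + 3 * m + p
      omega
    · show 9 ≤ 9 + 3 * a.val + t.1
      omega
  cases u with
  | fb v S =>
    have h1 : lab m p (Cx.fb v S) = 0 := rfl
    omega
  | ou e c =>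
    have h1 : lab m p (Cx.ou e c) = e.1.1 + 1 := rfl
    have h2 := e.1.2
    omega
  | nn e c =>
    have h1 : lab m p (Cx.nn e c) = e.1.1 + 5 := rfl
    have h2 := e.1.2
    omega
  | hb h' =>
    rcases h with _ | ⟨t, a⟩ <;> rcases h' with _ | ⟨t', a'⟩
    · rfl
    · exfalso
      have h1 : 9 + 3 * a'.val + t'.1 = 9 + 3 * m + p := hu
      have h2 := ZMod.val_lt a'
      have h3 := t'.2
      omega
    · exfalso
      have h1 : 9 + 3 * m + p = 9 + 3 * a.val + t.1 := hu
      have h2 := ZMod.val_lt a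
      have h3 := t.2
      omega
    · have h1 : 9 + 3 * a'.val + t'.1 = 9 + 3 * a.val + t.1 := hu
      have h2 := t.2
      have h3 := t'.2
      have h4 : a'.val = a.val := by omega
      have h5 : t'.1 = t.1 := by omega
      rw [ZMod.val_injective m h4, Fin.ext h5]

theorem two_core [NeZero m] {p : ℕ} (x : MQ m → ZMod 2) : Two (core x) (lab m p) := by
  intro u
  cases u with
  | fb v S =>
    refine ⟨Sum.inl (Cx.hb (some (1, v.1))), Sum.inl (Cx.hb (some (2, v.2))), ?_, ?_, ?_⟩
    · intro h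
      have h1 := Sum.inl_injective h
      injection h1 with h2
      have h3 : (1 : Fin 3) = 2 := congrArg Prod.fst (Option.some.inj h2)
      exact absurd h3 (by decide)
    · exact Or.inl (Or.inr (Or.inl rfl))
    · exact Or.inl (Or.inr (Or.inr rfl))
  | ou e c =>
    refine ⟨Sum.inl (Cx.nn e c), Sum.inr ⟨(Cx.ou e c, 0), Nat.succ_pos _⟩, ?_, ?_, ?_⟩
    · intro h
      cases h
    · exact Or.inl ⟨rfl, rfl⟩
    · exact rfl
  | nn e c =>
    refine ⟨Sum.inl (Cx.ou e c), Sum.inr ⟨(Cx.nn e c, 0), Nat.succ_pos _⟩, ?_, ?_, ?_⟩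
    · intro h
      cases h
    · exact Or.inr ⟨rfl, rfl⟩
    · exact rfl
  | hb h =>
    have h9 : 9 ≤ lab m p (Cx.hb h) := by
      rcases h with _ | ⟨t, a⟩
      · show 9 ≤ 9 + 3 * m + p
        omega
      · show 9 ≤ 9 + 3 * a.val + t.1
        omega
    refine ⟨Sum.inr ⟨(Cx.hb h, 0), by show 0 < lab m p (Cx.hb h); omega⟩,
      Sum.inr ⟨(Cx.hb h, 1), by show 1 < lab m p (Cx.hb h); omega⟩, ?_, rfl, rfl⟩
    intro h1
    have h2 : 0 = 1 := congrArg (fun z : {z : Cx m × ℕ // z.2 < lab m p z.1} => z.1.2)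
      (Sum.inr_injective h1)
    exact absurd h2 (by decide)

theorem bool_inj (g : ZMod 2 → ZMod 2) (hg : Function.Injective g) (c : ZMod 2) :
    g c = c + g 0 := by
  revert g c
  decide

/-- Isomorphic graphs have bits with the same sum. -/
theorem sum_eq_of_iso [NeZero m] {p : ℕ} (x x' : MQ m → ZMod 2) (φ : Cx m → Cx m)
    (hinj : Function.Injective φ) (hlab : ∀ u, lab m p (φ u) = lab m p u)
    (hadj : ∀ u w, (core x').Adj (φ u) (φ w) ↔ (core x).Adj u w) :
    ∑ v, x v = ∑ v, x' v := by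
  have hhb : ∀ h, φ (Cx.hb h) = Cx.hb h := fun h => lab_hb h _ (hlab _)
  have hfb : ∀ v S, ∃ S', φ (Cx.fb v S) = Cx.fb v S' := by
    intro v S
    have h1 := (hadj (Cx.fb v S) (Cx.hb (some (1, v.1)))).2 (Or.inl (Or.inr (Or.inl rfl)))
    have h2 := (hadj (Cx.fb v S) (Cx.hb (some (2, v.2)))).2 (Or.inl (Or.inr (Or.inr rfl)))
    have h3 := hlab (Cx.fb v S)
    rw [hhb] at h1 h2
    cases hu : φ (Cx.fb v S) with
    | fb v' S' =>
      rw [hu] at h1 h2
      have e1 : v.1 = v'.1 := by
        rcases h1 with h1 | h1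
        · rcases h1 with h1 | h1 | h1
          · exact absurd (hz_fst _ _ _ _ h1) (by decide)
          · have h4 : ((1 : Fin 3), v.1) = (1, v'.1) := Option.some.inj h1
            exact (Prod.mk.inj h4).2
          · exact absurd (show (1 : Fin 3) = 2 from congrArg Prod.fst (Option.some.inj h1))
              (by decide)
        · exact h1.elim
      have e2 : v.2 = v'.2 := by
        rcases h2 with h2 | h2
        · rcases h2 with h2 | h2 | h2
          · exact absurd (hz_fst _ _ _ _ h2) (by decide)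
          · exact absurd (show (2 : Fin 3) = 1 from congrArg Prod.fst (Option.some.inj h2))
              (by decide)
          · have h4 : ((2 : Fin 3), v.2) = (2, v'.2) := Option.some.inj h2
            exact (Prod.mk.inj h4).2
        · exact h2.elim
      exact ⟨S', by rw [show v' = v from Prod.ext e1.symm e2.symm]⟩
    | ou e c =>
      rw [hu] at h3
      exact absurd (show e.1.1 + 1 = 0 from h3) (Nat.succ_ne_zero _)
    | nn e c =>
      rw [hu] at h3
      exact absurd (show e.1.1 + 5 = 0 from h3) (Nat.succ_ne_zero _)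
    | hb h =>
      rw [hu] at h1
      exact (h1.elim id id : False).elim
  have hou : ∀ e c, ∃ c', φ (Cx.ou e c) = Cx.ou e c' := by
    intro e c
    have h1 := (hadj (Cx.fb e.2 (fun _ => c)) (Cx.ou e c)).2 (Or.inl ⟨e.1, rfl, rfl⟩)
    obtain ⟨S', hS'⟩ := hfb e.2 (fun _ => c)
    have h3 := hlab (Cx.ou e c)
    rw [hS'] at h1
    cases hu : φ (Cx.ou e c) with
    | fb v' S' =>
      rw [hu] at h3
      exact absurd (show 0 = e.1.1 + 1 from h3) (Nat.succ_ne_zero _).symm
    | ou e' c' =>
      rw [hu] at h1 h3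
      have h4 : e'.1 = e.1 := by
        have h5 : e'.1.1 + 1 = e.1.1 + 1 := h3
        exact Fin.ext (by omega)
      rcases h1 with h1 | h1
      · obtain ⟨k, hk, _⟩ := h1
        have h6 : e'.2 = e.2 := by rw [hk]; rfl
        exact ⟨c', by rw [show e' = e from Prod.ext h4 h6]⟩
      · exact h1.elim
    | nn e' c' =>
      rw [hu] at h3
      have h5 : e'.1.1 + 5 = e.1.1 + 1 := h3
      have h6 := e.1.2
      omega
    | hb h =>
      exfalso
      have h4 := hhb h
      rw [← hu] at h4
      have h5 := hinj h4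
      rw [hu] at h5
      cases h5
  have hnn : ∀ e c, ∃ c', φ (Cx.nn e c) = Cx.nn e c' := by
    intro e c
    have hport : mport m (mtgt m e) (Sum.inl e.1) = e := by
      show (e.1, (sg m e.1).symm (sg m e.1 e.2)) = e
      rw [Equiv.symm_apply_apply]
    have h1 := (hadj (Cx.fb (mtgt m e) (fun _ => c)) (Cx.nn e c)).2
      (Or.inl ⟨e.1, hport.symm, rfl⟩)
    obtain ⟨S', hS'⟩ := hfb (mtgt m e) (fun _ => c)
    have h3 := hlab (Cx.nn e c)
    rw [hS'] at h1
    cases hu : φ (Cx.nn e c) with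
    | fb v' S' =>
      rw [hu] at h3
      exact absurd (show 0 = e.1.1 + 5 from h3) (Nat.succ_ne_zero _).symm
    | ou e' c' =>
      rw [hu] at h3
      have h5 : e'.1.1 + 1 = e.1.1 + 5 := h3
      have h6 := e'.1.2
      omega
    | nn e' c' =>
      rw [hu] at h1 h3
      have h4 : e'.1 = e.1 := by
        have h5 : e'.1.1 + 5 = e.1.1 + 5 := h3
        exact Fin.ext (by omega)
      rcases h1 with h1 | h1
      · obtain ⟨k, hk, _⟩ := h1
        have h7 : e'.1 = k := congrArg Prod.fst hk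
        subst h7
        have h6 : e' = e := by
          rw [hk, h4]
          exact hport
        exact ⟨c', by rw [h6]⟩
      · exact h1.elim
    | hb h =>
      exfalso
      have h4 := hhb h
      rw [← hu] at h4
      have h5 := hinj h4
      rw [hu] at h5
      cases h5
  choose f hf using hfb
  choose g hg using hou
  choose g' hg' using hnn
  have hgg : ∀ e c, g e c = g' e c := by
    intro e c
    have h1 := (hadj (Cx.ou e c) (Cx.nn e c)).2 (Or.inl ⟨rfl, rfl⟩)
    rw [hg, hg'] at h1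
    rcases h1 with h1 | h1
    · exact h1.2
    · exact h1.elim
  have hginj : ∀ e, Function.Injective (g e) := by
    intro e c c' h
    have h1 : φ (Cx.ou e c) = φ (Cx.ou e c') := by rw [hg, hg, h]
    have h2 := hinj h1
    injection h2
  set M : ME m → ZMod 2 := fun e => g e 0 with hM
  have hgM : ∀ e c, g e c = c + M e := fun e c => bool_inj (g e) (hginj e) c
  have hfS : ∀ v S j, f v S j = S j + M (mport m v j) := by
    intro v S j
    rcases j with k | k
    · have h1 := (hadj (Cx.fb v S) (Cx.nn (mport m v (Sum.inl k)) (S (Sum.inl k)))).2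
        (Or.inl ⟨k, rfl, rfl⟩)
      rw [hf, hg'] at h1
      rcases h1 with h1 | h1
      · obtain ⟨k', h2, h3⟩ := h1
        have h4 : k = k' := congrArg Prod.fst h2
        subst h4
        rw [← h3, ← hgg, hgM]
      · exact h1.elim
    · have h1 := (hadj (Cx.fb v S) (Cx.ou (mport m v (Sum.inr k)) (S (Sum.inr k)))).2
        (Or.inl ⟨k, rfl, rfl⟩)
      rw [hf, hg] at h1
      rcases h1 with h1 | h1
      · obtain ⟨k', h2, h3⟩ := h1
        have h4 : k = k' := congrArg Prod.fst h2
        subst h4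
        rw [← h3, hgM]
      · exact h1.elim
  have hx : ∀ v, x v = bd (msrc m) (mtgt m) M v + x' v := by
    intro v
    have h1 := (hadj (Cx.fb v 0) (Cx.hb (hz v (∑ j, (0 : Pt → ZMod 2) j + x v)))).2
      (Or.inl (Or.inl rfl))
    rw [hf, hhb] at h1
    rcases h1 with h1 | h1
    · rcases h1 with h1 | h1 | h1
      · have h2 := hz_inj v h1
        have h3 : ∑ j, f v 0 j = bd (msrc m) (mtgt m) M v := by
          rw [← port_sum]
          refine Finset.sum_congr rfl fun j _ => ?_
          rw [hfS, Pi.zero_apply, zero_add]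
        rw [h3] at h2
        rw [← h2]
        simp
      · exact absurd (hz_fst _ _ _ _ h1.symm) (by decide)
      · exact absurd (hz_fst _ _ _ _ h1.symm) (by decide)
    · exact h1.elim
  rw [Finset.sum_congr rfl fun v _ => hx v, Finset.sum_add_distrib, sum_bd, zero_add]

end Pool.Agent.Q210.SP
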