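import Pool.Agent.Q210.SP.Wl

set_option autoImplicit false

/-! # State models with many states and high-dimensional Weisfeiler-Leman do not suffice -/

namespace Pool.Agent.Q210.SP

open Finset Pool.Agent.TH658.Dg Pool.Agent.H521R3.BI Pool.Agent.Q210.SM Pool.Agent.W185.SRG

section Count

variable (m : ℕ) [NeZero m]

theorem lab_pad (p : ℕ) : ∑ u : Cx m, lab m p u = ∑ u : Cx m, lab m 0 u + p := by
  classical
  have h : ∀ u : Cx m, lab m p u = lab m 0 u + if u = Cx.hb none then p else 0 := by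
    intro u
    cases u with
    | fb v S =>
      rw [if_neg (by intro h; cases h)]
      rfl
    | ou e c =>
      rw [if_neg (by intro h; cases h)]
      rfl
    | nn e c =>
      rw [if_neg (by intro h; cases h)]
      rfl
    | hb g =>
      rcases g with _ | ⟨t, a⟩
      · rw [if_pos rfl]
        rfl
      · rw [if_neg (by
          intro h
          injection h with h1
          cases h1)]
        rfl
  rw [Finset.sum_congr rfl fun u _ => h u, Finset.sum_add_distrib, Finset.sum_ite_eq']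
  simp

theorem card_Cx : Fintype.card (Cx m) = 256 * m ^ 2 + (8 * m ^ 2 + (8 * m ^ 2 + (3 * m + 1))) := by
  rw [Fintype.card_congr (cxEquiv m)]
  simp only [Fintype.card_sum, Fintype.card_prod, Fintype.card_option, ZMod.card, Fintype.card_fun,
    Fintype.card_fin]
  ring

theorem sum_lab_le : ∑ u : Cx m, lab m 0 u ≤ 96 * m ^ 2 + (3 * m + 1) * (9 + 3 * m) := by
  rw [← Equiv.sum_comp (cxEquiv m).symm, Fintype.sum_sum_type, Fintype.sum_sum_type,
    Fintype.sum_sum_type]
  have h1 : ∑ a : MQ m × (Pt → ZMod 2), lab m 0 ((cxEquiv m).symm (Sum.inl a)) = 0 :=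
    Finset.sum_eq_zero fun a _ => rfl
  have h2 : ∑ a : ME m × ZMod 2, lab m 0 ((cxEquiv m).symm (Sum.inr (Sum.inl a))) ≤
      32 * m ^ 2 := by
    have h3 := Finset.sum_le_card_nsmul (univ : Finset (ME m × ZMod 2))
      (fun a => lab m 0 ((cxEquiv m).symm (Sum.inr (Sum.inl a)))) 4 (by
        intro a _
        show a.1.1.1 + 1 ≤ 4
        have := a.1.1.2
        omega)
    rw [Finset.card_univ, smul_eq_mul] at h3
    simp only [Fintype.card_prod, ZMod.card, Fintype.card_fin] at h3
    refine h3.trans (le_of_eq ?_)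
    ring
  have h4 : ∑ a : ME m × ZMod 2, lab m 0 ((cxEquiv m).symm (Sum.inr (Sum.inr (Sum.inl a)))) ≤
      64 * m ^ 2 := by
    have h3 := Finset.sum_le_card_nsmul (univ : Finset (ME m × ZMod 2))
      (fun a => lab m 0 ((cxEquiv m).symm (Sum.inr (Sum.inr (Sum.inl a))))) 8 (by
        intro a _
        show a.1.1.1 + 5 ≤ 8
        have := a.1.1.2
        omega)
    rw [Finset.card_univ, smul_eq_mul] at h3
    simp only [Fintype.card_prod, ZMod.card, Fintype.card_fin] at h3
    refine h3.trans (le_of_eq ?_)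
    ring
  have h5 : ∑ a : Option (Fin 3 × ZMod m),
      lab m 0 ((cxEquiv m).symm (Sum.inr (Sum.inr (Sum.inr a)))) ≤
      (3 * m + 1) * (9 + 3 * m) := by
    have h3 := Finset.sum_le_card_nsmul (univ : Finset (Option (Fin 3 × ZMod m)))
      (fun a => lab m 0 ((cxEquiv m).symm (Sum.inr (Sum.inr (Sum.inr a))))) (9 + 3 * m) (by
        intro a _
        rcases a with _ | ⟨t, a⟩
        · exact le_of_eq rfl
        · show 9 + 3 * a.val + t.1 ≤ 9 + 3 * m
          have h6 := ZMod.val_lt a
          have h7 := t.2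
          omega)
    rw [Finset.card_univ, smul_eq_mul] at h3
    simp only [Fintype.card_prod, ZMod.card, Fintype.card_fin, Fintype.card_option] at h3
    exact h3
  omega

/-- The number of vertices without the padding. -/
theorem exists_base : ∃ base : ℕ, (∀ p, Fintype.card (PV (lab m p)) = base + p) ∧
    base ≤ 377 * m ^ 2 + 33 * m + 10 := by
  refine ⟨Fintype.card (Cx m) + ∑ u : Cx m, lab m 0 u, ?_, ?_⟩
  · intro p
    rw [card_PV, lab_pad]
    ring
  · have h1 := sum_lab_le m
    rw [card_Cx]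
    nlinarith

end Count

theorem main (n : ℕ) (hn : 160000000 ≤ n) :
    ∃ G H : SimpleGraph (Fin n), ¬ Nonempty (G ≃g H) ∧
      (∀ j : ℕ, 45000000 * j ≤ n → WLEquivalent j G H) ∧
      ∀ k : ℕ, 900 * k ^ 2 ≤ n →
        (∃ Φ : Equiv.Perm (Fin n → Fin k), ∀ f : Fin n → Fin k,
          (∀ i, size (Φ f) i = size f i) ∧ ∀ q, edgesIn H (Φ f) q = edgesIn G f q) ∧
        ∀ (R : Type) [CommSemiring R] (α : Fin k → R) (β γ : Sym2 (Fin k) → R),
          partitionFunction G α β γ = partitionFunction H α β γ := by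
  classical
  obtain ⟨q, hq⟩ : ∃ q, q = Nat.sqrt (n / 40000000) := ⟨_, rfl⟩
  have hq1 : q * q ≤ n / 40000000 := by
    rw [hq]
    exact Nat.sqrt_le _
  have hq2 : n / 40000000 < (q + 1) * (q + 1) := by
    rw [hq]
    exact Nat.lt_succ_sqrt _
  have hq3 : 2 ≤ q := by
    by_contra h
    have h1 : q + 1 ≤ 2 := by omega
    have h2 : (q + 1) * (q + 1) ≤ 2 * 2 := Nat.mul_le_mul h1 h1
    omega
  have hq4 : 40000000 * (q * q) ≤ n := by omega
  have hq5 : n < 40000000 * ((q + 1) * (q + 1)) := by omega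
  have hq6 : 4 * ((q + 1) * (q + 1)) ≤ 9 * (q * q) := by nlinarith
  have hq7 : n < 90000000 * (q * q) := by omega
  obtain ⟨m, hm⟩ : ∃ m, m = 320 * q := ⟨_, rfl⟩
  have : NeZero m := ⟨by omega⟩
  have hm2 : m ^ 2 = 102400 * (q * q) := by rw [hm]; ring
  obtain ⟨base, hb1, hb2⟩ := exists_base m
  have hb3 : base ≤ n := by
    have h1 : 33 * m + 10 ≤ m ^ 2 := by nlinarith
    omega
  have hcard : Fintype.card (PV (lab m (n - base))) = n := by
    rw [hb1]
    omega
  let e : PV (lab m (n - base)) ≃ Fin n :=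
    Fintype.equivOfCardEq (hcard.trans (Fintype.card_fin n).symm)
  have hs0 : ∑ v : MQ m, (0 : MQ m → ZMod 2) v = 0 := Finset.sum_eq_zero fun _ _ => rfl
  have hs1 : ∑ v : MQ m, (Pi.single 0 1 : MQ m → ZMod 2) v = 1 := by
    rw [Finset.sum_pi_single']
    simp
  let G0 := gr m (n - base) 0
  let H0 := gr m (n - base) (Pi.single 0 1)
  let φG : G0 ≃g G0.map e.toEmbedding := SimpleGraph.Iso.map e _
  let φH : H0 ≃g H0.map e.toEmbedding := SimpleGraph.Iso.map e _
  refine ⟨G0.map e.toEmbedding, H0.map e.toEmbedding, ?_, ?_, ?_⟩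
  · rintro ⟨ψ⟩
    refine gr_not_iso (m := m) (p := n - base) 0 (Pi.single 0 1) ?_
      ⟨(φG.trans ψ).trans φH.symm⟩
    rw [hs0, hs1]
    decide
  · intro j hj
    refine wle_trans (wle_symm (wle_iso φG j)) (wle_trans ?_ (wle_iso φH j))
    refine gr_wl (K := 16 * (q * q)) ?_ ?_ _ _
    · rw [hm2]
      omega
    · omega
  · intro k hk
    refine stats_of_cn φG φH ?_
    refine cn_gr ?_ _ _ hs0 hs1
    by_contra h
    have h1 : 320 * q ≤ k := by omega
    have h2 : (320 * q) ^ 2 ≤ k ^ 2 := Nat.pow_le_pow_left h1 2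
    have h3 : (320 * q) ^ 2 = 102400 * (q * q) := by ring
    omega

end Pool.Agent.Q210.SP
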