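import Pool.Agent.TH658.Dg.Marg

set_option autoImplicit false

/-! # Flows modulo two on the Margulis graph -/

namespace Pool.Agent.Q210.SP

open Finset Pool.Agent.TH658.Dg Pool.Agent.H521R3.BI

/-- The ports of a node. -/
abbrev Pt : Type := Fin 4 ⊕ Fin 4

variable {m : ℕ}

theorem port_sum [NeZero m] (M : ME m → ZMod 2) (v : MQ m) :
    ∑ j, M (mport m v j) = bd (msrc m) (mtgt m) M v := by
  rw [← mport_bd m M v]
  refine Finset.sum_congr rfl fun j _ => ?_
  rcases j with j | j
  · show _ = (1 : ℤ) • _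
    rw [one_smul]
  · show _ = (-1 : ℤ) • _
    rw [neg_smul, one_smul]
    exact (ZMod.neg_eq_self_mod_two _).symm

theorem bd_add [NeZero m] (M M' : ME m → ZMod 2) (v : MQ m) :
    bd (msrc m) (mtgt m) (M + M') v = bd (msrc m) (mtgt m) M v + bd (msrc m) (mtgt m) M' v := by
  rw [← port_sum, ← port_sum, ← port_sum, ← Finset.sum_add_distrib]
  rfl

theorem bd_lin [NeZero m] {ι : Type} [Fintype ι] (b : ι → ZMod 2) (M : ι → ME m → ZMod 2)
    (v : MQ m) :
    bd (msrc m) (mtgt m) (fun e => ∑ w, b w * M w e) v =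
      ∑ w, b w * bd (msrc m) (mtgt m) (M w) v := by
  rw [← port_sum, Finset.sum_comm]
  refine Finset.sum_congr rfl fun w _ => ?_
  rw [← port_sum, Finset.mul_sum]

theorem bd_single [NeZero m] (e : ME m) (v : MQ m) :
    bd (msrc m) (mtgt m) (Pi.single e 1) v =
      (Pi.single (mtgt m e) 1 + Pi.single (msrc m e) 1 : MQ m → ZMod 2) v := by
  unfold bd
  rw [Finset.sum_eq_single e]
  · rw [Pi.single_eq_same, Pi.add_apply, Pi.single_apply, Pi.single_apply, sub_eq_add_neg,
      ZMod.neg_eq_self_mod_two]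
    congr 1
    · simp only [eq_comm]
    · simp only [eq_comm]
  · intro e' _ he
    rw [Pi.single_eq_of_ne he]
    simp
  · intro h
    exact absurd (Finset.mem_univ _) h

/-- The Margulis graph is connected: there is a flow from each node to each node. -/
theorem exists_flow [NeZero m] (v w : MQ m) : ∃ M : ME m → ZMod 2, ∀ u,
    bd (msrc m) (mtgt m) M u = (Pi.single v 1 + Pi.single w 1 : MQ m → ZMod 2) u := by
  classical
  set S : Finset (MQ m) := univ.filter fun w => ∃ M : ME m → ZMod 2, ∀ u,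
    bd (msrc m) (mtgt m) M u = (Pi.single v 1 + Pi.single w 1 : MQ m → ZMod 2) u with hS
  have hv : v ∈ S := by
    refine Finset.mem_filter.2 ⟨Finset.mem_univ _, 0, fun u => ?_⟩
    rw [← port_sum, Pi.add_apply, CharTwo.add_self_eq_zero]
    simp
  have hstep : ∀ k w, w ∈ S → sg m k w ∈ S := by
    intro k w hw
    obtain ⟨M, hM⟩ := (Finset.mem_filter.1 hw).2
    refine Finset.mem_filter.2 ⟨Finset.mem_univ _, M + Pi.single (k, w) 1, fun u => ?_⟩
    rw [bd_add, hM, bd_single]
    simp only [Pi.add_apply]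
    have h1 := CharTwo.add_self_eq_zero ((Pi.single w 1 : MQ m → ZMod 2) u)
    have h2 : msrc m (k, w) = w := rfl
    have h3 : mtgt m (k, w) = sg m k w := rfl
    rw [h2, h3]
    linear_combination h1
  have h1 := sg_expand m S
  have h2 : ∀ k, (S.filter (fun v => sg m k v ∉ S)) = ∅ := by
    intro k
    rw [Finset.filter_eq_empty_iff]
    intro w hw h
    exact h (hstep k w hw)
  have h3 : (∑ k, ((S.filter (fun v => sg m k v ∉ S)).card : ℝ)) = 0 := by
    refine Finset.sum_eq_zero fun k _ => ?_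
    rw [h2, Finset.card_empty, Nat.cast_zero]
  rw [h3, mul_zero] at h1
  have h4 : (0 : ℝ) < S.card := by
    exact_mod_cast Finset.card_pos.2 ⟨v, hv⟩
  have h5 : (m : ℝ) ^ 2 ≤ S.card := by
    by_contra h6
    push Not at h6
    have h7 : 0 < (S.card : ℝ) * ((m : ℝ) ^ 2 - S.card) := mul_pos h4 (by linarith)
    linarith
  have h6 : m ^ 2 ≤ S.card := by exact_mod_cast h5
  have h7 : Fintype.card (MQ m) = m ^ 2 := by
    rw [Fintype.card_prod, ZMod.card]
    ring
  have h8 : S = univ := by
    rw [← Finset.card_eq_iff_eq_univ]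
    refine le_antisymm (Finset.card_le_univ S) ?_
    omega
  have h9 : w ∈ S := by
    rw [h8]
    exact Finset.mem_univ _
  exact (Finset.mem_filter.1 h9).2

/-- Each demand with sum zero is the net flow of a flow. -/
theorem bd_surj [NeZero m] (b : MQ m → ZMod 2) (hb : ∑ v, b v = 0) :
    ∃ M : ME m → ZMod 2, ∀ u, bd (msrc m) (mtgt m) M u = b u := by
  classical
  choose M hM using fun w : MQ m => exists_flow w (0 : MQ m)
  refine ⟨fun e => ∑ w, b w * M w e, fun u => ?_⟩
  rw [bd_lin]
  have h1 : ∀ w, b w * bd (msrc m) (mtgt m) (M w) u =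
      b w * (Pi.single w 1 : MQ m → ZMod 2) u + b w * (Pi.single 0 1 : MQ m → ZMod 2) u := by
    intro w
    rw [hM, Pi.add_apply, mul_add]
  rw [Finset.sum_congr rfl fun w _ => h1 w, Finset.sum_add_distrib, ← Finset.sum_mul, hb, zero_mul,
    add_zero, Finset.sum_eq_single u]
  · rw [Pi.single_eq_same, mul_one]
  · intro w _ hw
    rw [Pi.single_eq_of_ne hw.symm, mul_zero]
  · intro h
    exact absurd (Finset.mem_univ _) h

end Pool.Agent.Q210.SP
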